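import Pool.Agent.NH52.WN.Stm
import Pool.Agent.NH57.WM.Lin

/-!
# Project WN, WN-3: characteristic polynomials and traces if `y` is a scalar on `B / A`
-/

set_option autoImplicit false

namespace Pool.Agent.NH52.WN

open Module Polynomial

namespace Cps

variable {k V : Type} [Field k] [AddCommGroup V] [Module k V] [FiniteDimensional k V]

theorem tr_next (f : End k V) : LinearMap.trace k V f = -(LinearMap.charpoly f).nextCoeff := by
  classical
  rw [LinearMap.trace_eq_matrix_trace k (finBasis k V), Matrix.trace_eq_neg_charpoly_nextCoeff,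
    LinearMap.charpoly_toMatrix]

theorem charpoly_scalar [Infinite k] (f : End k V) (c : k) (h : ∀ x, f x = c • x) :
    LinearMap.charpoly f = (X - C c) ^ finrank k V := by
  apply Polynomial.funext
  intro t
  rw [LinearMap.eval_charpoly]
  have h1 : algebraMap k (End k V) t - f = (t - c) • LinearMap.id := by
    ext x
    rw [LinearMap.sub_apply, Module.algebraMap_end_apply, h, LinearMap.smul_apply,
      LinearMap.id_apply, sub_smul]
  rw [h1, LinearMap.det_smul, LinearMap.det_id, mul_one, eval_pow, eval_sub, eval_X, eval_C]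

end Cps

open Cps

theorem t_CPS : S_CPS := by
  intro k V _ _ _ _ _ y A B c hAB hA hBA
  have hB : ∀ x ∈ B, y x ∈ B := by
    intro x hx
    have h1 := B.add_mem (hAB (hBA x hx)) (B.smul_mem c hx)
    rwa [sub_add_cancel] at h1
  have hS : A.submoduleOf B ≤ (A.submoduleOf B).comap (y.restrict hB) := by
    intro x hx
    exact hA _ hx
  have hcp : cps y B = cps y A * (X - C c) ^ (finrank k B - finrank k A) := by
    unfold cps
    rw [dif_pos hB, dif_pos hA,
      Pool.Agent.NH57.WM.charpoly_mul (y.restrict hB) (A.submoduleOf B) hS]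
    congr 1
    · have h1 : y.restrict hA = (Submodule.submoduleOfEquivOfLe hAB).conj
          ((y.restrict hB).restrict hS) := by
        ext x
        rw [LinearEquiv.conj_apply_apply]
        rfl
      rw [h1, LinearEquiv.charpoly_conj]
    · rw [charpoly_scalar ((A.submoduleOf B).mapQ (A.submoduleOf B) (y.restrict hB) hS) c]
      · congr 1
        have h2 := Submodule.finrank_quotient_add_finrank (A.submoduleOf B)
        have h3 := (Submodule.submoduleOfEquivOfLe hAB).finrank_eq
        omega
      · intro x
        obtain ⟨x, rfl⟩ := Submodule.mkQ_surjective _ x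
        rw [Submodule.mkQ_apply, Submodule.mapQ_apply, ← Submodule.Quotient.mk_smul,
          Submodule.Quotient.eq]
        exact hBA x x.2
  refine ⟨hB, hcp, ?_⟩
  have h1 : ∀ W : Submodule k V, (∀ x ∈ W, y x ∈ W) → trs y W = -(cps y W).nextCoeff := by
    intro W hW
    unfold trs cps
    rw [dif_pos hW, dif_pos hW, tr_next]
  have hm : (cps y A).Monic := by
    unfold cps
    rw [dif_pos hA]
    exact LinearMap.charpoly_monic _
  rw [h1 B hB, h1 A hA, hcp, hm.nextCoeff_mul ((monic_X_sub_C c).pow _),
    (monic_X_sub_C c).nextCoeff_pow, nextCoeff_X_sub_C]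
  rw [nsmul_eq_mul]
  ring

end Pool.Agent.NH52.WN
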