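import Pool.Agent.NH52.WN.Gal

/-!
# WN: families
-/

set_option autoImplicit false
set_option linter.unusedSectionVars false

namespace Pool.Agent.NH52.WN

open NumberField Filter Topology IsDedekindDomain Pool.Agent.W401.Cheb Pool.Agent.R401.Sup
open Pool.Agent.W569.FM Pool.Agent.R401.Img Pool.Agent.R401.Sup3 Pool.Agent.R401.Sup4
open Pool.Agent.R401.Tr3 Pool.Agent.R401.Tr4 Pool.Agent.R401.Tr5 Module Polynomial Matrix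
open Pool.Agent.R401.Tr8 Pool.Agent.R401.Tr9 Pool.Agent.NH57.WM

/-- the integral characteristic polynomial -/
noncomputable def PZ (q w : ℕ) (d : ℕ → ℤ) : ℤ[X] :=
  ∏ j ∈ sup w d, (X - C (d j * (q : ℤ) ^ ((w - j) / 2)))

theorem PZ_map {k : Type} [Field k] (q w : ℕ) (d : ℕ → ℤ) :
    (PZ q w d).map (Int.castRingHom k) =
      ∏ j ∈ sup w d, (X - C ((d j * (q : ℤ) ^ ((w - j) / 2) : ℤ) : k)) := by
  unfold PZ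
  rw [Polynomial.map_prod]
  refine Finset.prod_congr rfl fun j _ => ?_
  rw [Polynomial.map_sub, Polynomial.map_X, Polynomial.map_C]
  rfl

theorem reverse_lin {k : Type} [Field k] (a : k) : (X - C a).reverse = 1 - C a * X := by
  have h0 : (X - C a : k[X]).natDegree = 1 := natDegree_X_sub_C a
  ext i
  rw [coeff_reverse, h0]
  rcases i with _ | _ | i
  · simp [revAt_le]
  · simp [revAt_le, coeff_one]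
  · have h1 : revAt 1 (i + 1 + 1) = i + 1 + 1 := revAt_eq_self_of_lt (by omega)
    rw [h1]
    simp [coeff_X, coeff_one]

theorem reverse_prod {k : Type} [Field k] (B : Finset ℕ) (a : ℕ → k) :
    (∏ j ∈ B, (X - C (a j))).reverse = ∏ j ∈ B, (1 - C (a j) * X) := by
  classical
  induction B using Finset.induction_on with
  | empty =>
    rw [Finset.prod_empty, Finset.prod_empty]
    rw [← C_1, reverse_C]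
  | insert b B hb ih =>
    rw [Finset.prod_insert hb, Finset.prod_insert hb, reverse_mul_of_domain, ih, reverse_lin]

variable {K : Type} [Field K] [NumberField K] {n : ℕ}

theorem fam (V : ∀ (ℓ : ℕ) [Fact ℓ.Prime], GK K →* GL (Fin n) ℚ_[ℓ])
    (hV : ∀ (ℓ : ℕ) [Fact ℓ.Prime], Continuous (V ℓ)) {P : Ideal (OO K)} (hP : P.IsMaximal)
    {q : ℕ} (hq : 2 ≤ q) {σ : GK K} (hσ : FrobAt q P σ) (w : ℕ)
    (hpol : ∀ (ℓ : ℕ) [Fact ℓ.Prime], (ℓ : OO K) ∉ P → ∃ J : Matrix (Fin n) (Fin n) ℚ_[ℓ],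
      J.det ≠ 0 ∧ Jᵀ = (-1 : ℚ_[ℓ]) ^ w • J ∧
      ∀ g, FrobAt q P g⁻¹ → (mt (V ℓ) g)ᵀ * J * mt (V ℓ) g = (q : ℚ_[ℓ]) ^ w • J)
    (I : ∀ (ℓ : ℕ) [Fact ℓ.Prime], Submodule ℚ_[ℓ] (Fin n → ℚ_[ℓ]))
    (hI : ∀ (ℓ : ℕ) [Fact ℓ.Prime] (x : Fin n → ℚ_[ℓ]),
      x ∈ I ℓ ↔ ∀ τ, InInertia P τ → mt (V ℓ) τ *ᵥ x = x)
    (hmf : ∀ (ℓ : ℕ) [Fact ℓ.Prime], (ℓ : OO K) ∉ P → ∃ U : Subgroup (GK K),
      IsOpen (U : Set (GK K)) ∧ ∃ g, InInertia P g ∧ IsNilpotent (mt (V ℓ) g - 1) ∧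
      (∀ x, mt (V ℓ) g *ᵥ x = x → ∀ h ∈ U, InInertia P h → mt (V ℓ) h *ᵥ x = x) ∧
      ∀ b : ℕ, finrank ℚ_[ℓ] ↥(I ℓ ⊓ LinearMap.range (Matrix.toLin' ((mt (V ℓ) g - 1) ^ b))) ≤
        finrank ℚ_[ℓ] ↥(I ℓ ⊓ LinearMap.range (Matrix.toLin' ((mt (V ℓ) g - 1) ^ (b + 1)))) + 1)
    (hint : ∀ (ℓ : ℕ) [Fact ℓ.Prime], (ℓ : OO K) ∉ P →
      ∃ f : ℤ[X], f.Monic ∧ aeval (mt (V ℓ) σ⁻¹) f = 0)
    (t : GK K → ℚ) (ht : ∀ (ℓ : ℕ) [Fact ℓ.Prime], (ℓ : OO K) ∉ P → ∀ g : GK K,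
      FrobAt q P g⁻¹ → (mt (V ℓ) g).trace = (t g : ℚ_[ℓ])) :
    ∃ d : ℕ → ℤ, Sg w d ∧ ∀ (ℓ : ℕ) [Fact ℓ.Prime], (ℓ : OO K) ∉ P →
      cps (Matrix.toLin' (mt (V ℓ) σ⁻¹)) (I ℓ) = (PZ q w d).map (Int.castRingHom ℚ_[ℓ]) := by
  classical
  obtain ⟨ℓ₀, hℓ₀, hℓ₀P⟩ := Pool.Agent.R401.Tr6.exists_prime_not_mem hP
  have : Fact ℓ₀.Prime := ⟨hℓ₀⟩
  obtain ⟨J₀, hJ01, hJ02, hJ03⟩ := hpol ℓ₀ hℓ₀P
  obtain ⟨U₀, hU₀, g₀, hg1, hg2, hg3, hg4⟩ := hmf ℓ₀ hℓ₀P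
  obtain ⟨d₀, hd1, hd2, -⟩ := single (V ℓ₀) (hV ℓ₀) hP hℓ₀P hq hσ w J₀ hJ01 hJ02 hJ03 U₀ hg1 hg2 hg3
    (I ℓ₀) (hI ℓ₀) hg4 (hint ℓ₀ hℓ₀P) U₀ hU₀ le_rfl
  refine ⟨d₀, hd1, ?_⟩
  intro ℓ _ hℓP
  obtain ⟨J, hJ1, hJ2, hJ3⟩ := hpol ℓ hℓP
  obtain ⟨U, hU, g, h1, h2, h3, h4⟩ := hmf ℓ hℓP
  have hUo : IsOpen ((U₀ ⊓ U : Subgroup (GK K)) : Set (GK K)) := by
    rw [Subgroup.coe_inf]
    exact hU₀.inter hU
  obtain ⟨d, he1, he2, he3⟩ := single (V ℓ) (hV ℓ) hP hℓP hq hσ w J hJ1 hJ2 hJ3 U h1 h2 h3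
    (I ℓ) (hI ℓ) h4 (hint ℓ hℓP) (U₀ ⊓ U) hUo inf_le_right
  obtain ⟨d', hf1, hf2, hf3⟩ := single (V ℓ₀) (hV ℓ₀) hP hℓ₀P hq hσ w J₀ hJ01 hJ02 hJ03 U₀ hg1 hg2 hg3
    (I ℓ₀) (hI ℓ₀) hg4 (hint ℓ₀ hℓ₀P) (U₀ ⊓ U) hUo inf_le_left
  -- the average of the traces
  have key : ∀ (ℓ : ℕ) [Fact ℓ.Prime], (ℓ : OO K) ∉ P →
      (Nat.card (IG P ⧸ (U₀ ⊓ U).subgroupOf (IG P)) : ℚ_[ℓ])⁻¹ *
        ∑ᶠ c : IG P ⧸ (U₀ ⊓ U).subgroupOf (IG P), (mt (V ℓ) (σ⁻¹ * ((c.out : IG P) : GK K))).trace =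
      (((Nat.card (IG P ⧸ (U₀ ⊓ U).subgroupOf (IG P)) : ℚ)⁻¹ *
        ∑ᶠ c : IG P ⧸ (U₀ ⊓ U).subgroupOf (IG P), t (σ⁻¹ * ((c.out : IG P) : GK K)) : ℚ) :
          ℚ_[ℓ]) := by
    intro ℓ _ hℓP
    have := Pool.Agent.R401.Tr6.finQ (U₀ ⊓ U) hUo (P := P)
    have hft : Fintype (IG P ⧸ (U₀ ⊓ U).subgroupOf (IG P)) := Fintype.ofFinite _
    rw [finsum_eq_sum_of_fintype, finsum_eq_sum_of_fintype]
    push_cast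
    congr 1
    refine Finset.sum_congr rfl fun c _ => ?_
    refine ht ℓ hℓP _ ?_
    rw [_root_.mul_inv_rev, inv_inv]
    exact frob_mul_inertia hσ ((IG P).inv_mem c.out.2)
  rw [key ℓ hℓP] at he3
  rw [key ℓ₀ hℓ₀P] at hf3
  have e1 : ((Nat.card (IG P ⧸ (U₀ ⊓ U).subgroupOf (IG P)) : ℚ)⁻¹ *
        ∑ᶠ c : IG P ⧸ (U₀ ⊓ U).subgroupOf (IG P), t (σ⁻¹ * ((c.out : IG P) : GK K)) : ℚ) =
      ((cmb q w d : ℤ) : ℚ) := by exact_mod_cast he3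
  have e2 : ((Nat.card (IG P ⧸ (U₀ ⊓ U).subgroupOf (IG P)) : ℚ)⁻¹ *
        ∑ᶠ c : IG P ⧸ (U₀ ⊓ U).subgroupOf (IG P), t (σ⁻¹ * ((c.out : IG P) : GK K)) : ℚ) =
      ((cmb q w d' : ℤ) : ℚ) := by exact_mod_cast hf3
  have e3 : cmb q w d = cmb q w d' := by exact_mod_cast e1.symm.trans e2
  have e4 : d = d' := t_UNI q w hq d d' he1 hf1 e3
  have e5 : PZ q w d' = PZ q w d₀ := by
    apply Polynomial.map_injective (Int.castRingHom ℚ_[ℓ₀]) Int.cast_injective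
    rw [PZ_map, PZ_map, ← hf2, ← hd2]
  rw [he2, e4, ← PZ_map, e5]

/-- the local factor -/
theorem fam_factor (V : ∀ (ℓ : ℕ) [Fact ℓ.Prime], GK K →* GL (Fin n) ℚ_[ℓ])
    {P : Ideal (OO K)} {q : ℕ} (hq : 2 ≤ q) {σ : GK K} (hσ : FrobAt q P σ) (w : ℕ)
    (I : ∀ (ℓ : ℕ) [Fact ℓ.Prime], Submodule ℚ_[ℓ] (Fin n → ℚ_[ℓ]))
    (hI : ∀ (ℓ : ℕ) [Fact ℓ.Prime] (x : Fin n → ℚ_[ℓ]),
      x ∈ I ℓ ↔ ∀ τ, InInertia P τ → mt (V ℓ) τ *ᵥ x = x) (d : ℕ → ℤ)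
    {ℓ : ℕ} [Fact ℓ.Prime]
    (h : cps (Matrix.toLin' (mt (V ℓ) σ⁻¹)) (I ℓ) = (PZ q w d).map (Int.castRingHom ℚ_[ℓ]))
    {g : GK K} (hg : FrobAt q P g⁻¹) :
    (∀ (m : ℕ) (b : Basis (Fin m) ℚ_[ℓ] (I ℓ)) (A : Matrix (Fin m) (Fin m) ℚ_[ℓ]),
      (∀ j, mt (V ℓ) g *ᵥ (b j : Fin n → ℚ_[ℓ]) = ∑ i, A i j • (b i : Fin n → ℚ_[ℓ])) →
      A.charpolyRev = (∏ j ∈ sup w d, (1 - C (d j * (q : ℤ) ^ ((w - j) / 2)) * X) : ℤ[X]).map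
        (Int.castRingHom ℚ_[ℓ])) ∧
    ∃ (m : ℕ) (b : Basis (Fin m) ℚ_[ℓ] (I ℓ)) (A : Matrix (Fin m) (Fin m) ℚ_[ℓ]),
      ∀ j, mt (V ℓ) g *ᵥ (b j : Fin n → ℚ_[ℓ]) = ∑ i, A i j • (b i : Fin n → ℚ_[ℓ]) := by
  have hsame : ∀ x ∈ I ℓ, mt (V ℓ) g *ᵥ x = mt (V ℓ) σ⁻¹ *ᵥ x := by
    intro x hx
    have h1 := (hI ℓ x).1 hx _ (frob_diff hσ hg)
    have h2 : g = σ⁻¹ * (σ * g) := by group
    conv_lhs => rw [h2, mt_mul, ← Matrix.mulVec_mulVec, h1]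
  have hst : ∀ x ∈ I ℓ, (Matrix.toLin' (mt (V ℓ) σ⁻¹)) x ∈ I ℓ := by
    intro x hx
    rw [Matrix.toLin'_apply]
    exact Pool.Agent.R401.Tr6.stable (V ℓ) hq hσ (hI ℓ) x hx
  refine ⟨?_, ?_⟩
  · intro m b A hA
    have h1 : A = LinearMap.toMatrix b b ((Matrix.toLin' (mt (V ℓ) σ⁻¹)).restrict hst) := by
      have h2 : ∀ j, ((Matrix.toLin' (mt (V ℓ) σ⁻¹)).restrict hst) (b j) = ∑ i, A i j • b i := by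
        intro j
        apply Subtype.ext
        rw [LinearMap.coe_restrict_apply, Matrix.toLin'_apply, ← hsame _ (b j).2, hA]
        simp
      ext i j
      rw [LinearMap.toMatrix_apply, h2, map_sum, Finsupp.finsetSum_apply]
      simp [Finsupp.single_apply]
    have h2 : A.charpoly = (PZ q w d).map (Int.castRingHom ℚ_[ℓ]) := by
      rw [h1, LinearMap.charpoly_toMatrix, ← h]
      unfold cps
      rw [dif_pos hst]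
    rw [← Matrix.reverse_charpoly, h2, PZ_map, reverse_prod, Polynomial.map_prod]
    refine Finset.prod_congr rfl fun j _ => ?_
    rw [Polynomial.map_sub, Polynomial.map_one, Polynomial.map_mul, Polynomial.map_X,
      Polynomial.map_C]
    rfl
  · obtain ⟨m, b, A, hA⟩ := Pool.Agent.R401.Tr6.exists_basis (V ℓ) hq hσ (hI ℓ)
    exact ⟨m, b, A, fun j => by rw [hsame _ (b j).2, hA]⟩

end Pool.Agent.NH52.WN
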