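import Pool.Agent.NH52.WN.Stm

/-!
# Project WN: the invariants
-/

set_option autoImplicit false
set_option linter.unusedSectionVars false

namespace Pool.Agent.NH52.WN

open Module Polynomial

namespace La

section

variable {k V : Type} [Field k] [AddCommGroup V] [Module k V]

theorem trs_pos (y : End k V) (W : Submodule k V) (h : ∀ x ∈ W, y x ∈ W) :
    trs y W = LinearMap.trace k W (y.restrict h) := by
  unfold trs
  rw [dif_pos h]

theorem cps_pos [FiniteDimensional k V] (y : End k V) (W : Submodule k V)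
    (h : ∀ x ∈ W, y x ∈ W) : cps y W = LinearMap.charpoly (y.restrict h) := by
  unfold cps
  rw [dif_pos h]

theorem trs_add (y y' : End k V) (W : Submodule k V) (h : ∀ x ∈ W, y x ∈ W)
    (h' : ∀ x ∈ W, y' x ∈ W) : trs (y + y') W = trs y W + trs y' W := by
  have h2 : ∀ x ∈ W, (y + y') x ∈ W := fun x hx => W.add_mem (h x hx) (h' x hx)
  rw [trs_pos _ _ h, trs_pos _ _ h', trs_pos _ _ h2, ← map_add]
  congr 1

theorem trs_smul (c : k) (y : End k V) (W : Submodule k V) (h : ∀ x ∈ W, y x ∈ W) :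
    trs (c • y) W = c * trs y W := by
  have h2 : ∀ x ∈ W, (c • y) x ∈ W := fun x hx => W.smul_mem c (h x hx)
  rw [trs_pos _ _ h, trs_pos _ _ h2, ← smul_eq_mul, ← map_smul]
  congr 1

theorem trs_zero (W : Submodule k V) : trs (0 : End k V) W = 0 := by
  have h2 : ∀ x ∈ W, (0 : End k V) x ∈ W := fun x _ => W.zero_mem
  rw [trs_pos _ _ h2]
  have : (0 : End k V).restrict h2 = 0 := by
    ext x
    rfl
  rw [this, map_zero]

theorem trs_sum {G : Type} (D : Finset G) (y : G → End k V) (W : Submodule k V)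
    (h : ∀ d ∈ D, ∀ x ∈ W, y d x ∈ W) : trs (∑ d ∈ D, y d) W = ∑ d ∈ D, trs (y d) W := by
  classical
  induction D using Finset.induction_on with
  | empty => rw [Finset.sum_empty, Finset.sum_empty, trs_zero]
  | insert a s ha ih =>
    rw [Finset.sum_insert ha, Finset.sum_insert ha, trs_add, ih]
    · exact fun d hd => h d (Finset.mem_insert_of_mem hd)
    · exact h a (Finset.mem_insert_self _ _)
    · intro x hx
      rw [LinearMap.sum_apply]
      exact W.sum_mem fun d hd => h d (Finset.mem_insert_of_mem hd) x hx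

theorem trs_congr (y y' : End k V) (W : Submodule k V) (h : ∀ x ∈ W, y' x ∈ W)
    (he : ∀ x ∈ W, y x = y' x) : trs y W = trs y' W := by
  have h2 : ∀ x ∈ W, y x ∈ W := fun x hx => by rw [he x hx]; exact h x hx
  rw [trs_pos _ _ h, trs_pos _ _ h2]
  congr 1
  ext x
  exact he x x.2

theorem trs_bot (y : End k V) : trs y (⊥ : Submodule k V) = 0 := by
  rw [trs_congr y 0 ⊥ (fun x _ => Submodule.zero_mem _) (fun x hx => by
    rw [(Submodule.mem_bot k).1 hx, map_zero, map_zero]), trs_zero]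

theorem cps_bot [FiniteDimensional k V] (y : End k V) : cps y (⊥ : Submodule k V) = 1 := by
  have h : ∀ x ∈ (⊥ : Submodule k V), y x ∈ (⊥ : Submodule k V) := fun x hx => by
    rw [(Submodule.mem_bot k).1 hx, map_zero]
    exact Submodule.zero_mem _
  rw [cps_pos _ _ h]
  have h1 := LinearMap.charpoly_monic (y.restrict h)
  have h2 := LinearMap.charpoly_natDegree (y.restrict h)
  rw [finrank_bot] at h2
  exact h1.natDegree_eq_zero.1 h2

/-- the filtration of the invariants -/
def SS {G : Type} [Group G] (N : End k V) (ρ : G →* End k V) (j : ℕ) : Submodule k V :=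
  inv ρ ⊓ LinearMap.range (N ^ j)

theorem SS_anti {G : Type} [Group G] (N : End k V) (ρ : G →* End k V) (j : ℕ) :
    SS N ρ (j + 1) ≤ SS N ρ j := by
  rintro x ⟨hx, u, hu⟩
  refine ⟨hx, N u, ?_⟩
  rw [← hu, pow_succ]
  rfl

theorem pow_rel {N F : End k V} {q : k} (h : N * F = q • (F * N)) (j : ℕ) :
    N ^ j * F = q ^ j • (F * N ^ j) := by
  induction j with
  | zero => simp
  | succ j ih =>
    rw [pow_succ, mul_assoc, h, mul_smul_comm, ← mul_assoc, ih, smul_mul_assoc, smul_smul,
      mul_assoc]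
    congr 1
    ring

theorem F_range {N F : End k V} {q : k} (hq : q ≠ 0) (h : N * F = q • (F * N)) (j : ℕ) {x : V}
    (hx : x ∈ LinearMap.range (N ^ j)) : F x ∈ LinearMap.range (N ^ j) := by
  obtain ⟨u, rfl⟩ := hx
  have h1 := congrArg (fun y : End k V => y u) (pow_rel h j)
  have h2 : (N ^ j) (F u) = q ^ j • F ((N ^ j) u) := h1
  refine ⟨(q ^ j)⁻¹ • F u, ?_⟩
  rw [map_smul, h2, smul_smul, inv_mul_cancel₀ (pow_ne_zero j hq), one_smul]

end

section

variable {k V : Type} [Field k] [CharZero k] [AddCommGroup V] [Module k V]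
  [FiniteDimensional k V] {G : Type} [Group G] {N F : End k V} {J : V →ₗ[k] V →ₗ[k] k}
  {ρ : G →* End k V} {D : Finset G} {q w : ℕ}

theorem F_inv (hW : WD N F J ρ D q w) {x : V} (hx : x ∈ inv ρ) : F x ∈ inv ρ := by
  intro g
  obtain ⟨g', hg'⟩ := hW.nor g
  have h1 := congrArg (fun y : End k V => y x) hg'
  have h2 : ρ g (F x) = F (ρ g' x) := h1
  rw [h2, hx g']

theorem F_SS (hW : WD N F J ρ D q w) (j : ℕ) {x : V} (hx : x ∈ SS N ρ j) : F x ∈ SS N ρ j :=
  ⟨F_inv hW hx.1, F_range hW.q0 hW.rel j hx.2⟩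

theorem Npow (hW : WD N F J ρ D q w) : N ^ finrank k V = 0 := by
  have h1 := (LinearMap.isNilpotent_iff_charpoly N).1 hW.nil
  have h2 := LinearMap.aeval_self_charpoly N
  rw [h1] at h2
  simpa using h2

theorem SS_top (hW : WD N F J ρ D q w) : SS N ρ (finrank k V) = ⊥ := by
  rw [eq_bot_iff]
  rintro x ⟨-, u, hu⟩
  rw [Npow hW] at hu
  rw [← hu]
  simp

theorem SS_zero : SS N ρ 0 = inv ρ := by
  unfold SS
  rw [pow_zero]
  refine le_antisymm inf_le_left (le_inf le_rfl fun x _ => ⟨x, rfl⟩)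

/-- the step of the filtration -/
theorem step (hW : WD N F J ρ D q w)
    (hd : ∀ j, finrank k ↥(SS N ρ j) ≤ finrank k ↥(SS N ρ (j + 1)) + 1) (j : ℕ)
    (hj : SS N ρ (j + 1) ≠ SS N ρ j) :
    ∃ (z : V) (s : k), z ∈ SS N ρ j ∧ z ∉ SS N ρ (j + 1) ∧ (∀ x ∈ SS N ρ j, ∃ c : k, x - c • z ∈ SS N ρ (j + 1)) ∧
      F z - s • z ∈ SS N ρ (j + 1) ∧ (∀ x ∈ SS N ρ j, F x - s • x ∈ SS N ρ (j + 1)) ∧
      finrank k ↥(SS N ρ j) - finrank k ↥(SS N ρ (j + 1)) = 1 := by
  have hlt : SS N ρ (j + 1) < SS N ρ j := lt_of_le_of_ne (SS_anti N ρ j) hj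
  obtain ⟨z, hz, hz'⟩ := SetLike.exists_of_lt hlt
  have h1 : SS N ρ (j + 1) ⊔ Submodule.span k {z} = SS N ρ j := by
    refine Submodule.eq_of_le_of_finrank_le (sup_le (SS_anti N ρ j) ?_) ?_
    · rw [Submodule.span_singleton_le_iff_mem]
      exact hz
    · have h2 : SS N ρ (j + 1) < SS N ρ (j + 1) ⊔ Submodule.span k {z} := by
        refine lt_of_le_of_ne le_sup_left fun h => hz' ?_
        rw [h]
        exact (le_sup_right : Submodule.span k {z} ≤ _) (Submodule.mem_span_singleton_self z)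
      have h3 := Submodule.finrank_lt_finrank_of_lt h2
      have h4 := hd j
      omega
  have h2 : ∀ x ∈ SS N ρ j, ∃ c : k, x - c • z ∈ SS N ρ (j + 1) := by
    intro x hx
    rw [← h1, Submodule.mem_sup] at hx
    obtain ⟨a, ha, b, hb, rfl⟩ := hx
    obtain ⟨c, rfl⟩ := Submodule.mem_span_singleton.1 hb
    exact ⟨c, by rwa [add_sub_cancel_right]⟩
  obtain ⟨s, hs⟩ := h2 (F z) (F_SS hW j hz)
  refine ⟨z, s, hz, hz', h2, hs, fun x hx => ?_, ?_⟩
  · obtain ⟨c, hc⟩ := h2 x hx
    have e : F x - s • x = c • (F z - s • z) + (F (x - c • z) - s • (x - c • z)) := by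
      rw [map_sub, map_smul, smul_sub, smul_sub, smul_comm c s z]
      abel
    rw [e]
    exact add_mem (Submodule.smul_mem _ _ hs)
      (sub_mem (F_SS hW (j + 1) hc) (Submodule.smul_mem _ _ hc))
  · have h3 := Submodule.finrank_lt_finrank_of_lt hlt
    have h4 := hd j
    omega

/-- the characteristic polynomial and the trace on the steps -/
theorem down (h2 : S_CPS) (hW : WD N F J ρ D q w) (s : ℕ → k)
    (hs : ∀ j, SS N ρ (j + 1) ≠ SS N ρ j → ∀ x ∈ SS N ρ j, F x - s j • x ∈ SS N ρ (j + 1))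
    (hf : ∀ j, SS N ρ (j + 1) ≠ SS N ρ j →
      finrank k ↥(SS N ρ j) - finrank k ↥(SS N ρ (j + 1)) = 1)
    (B : Finset ℕ) (hB : ∀ j, j ∈ B ↔ j < finrank k V ∧ SS N ρ (j + 1) ≠ SS N ρ j) :
    ∀ m j, j + m = finrank k V →
      cps F (SS N ρ j) = ∏ b ∈ B with j ≤ b, (X - C (s b)) ∧
      trs F (SS N ρ j) = ∑ b ∈ B with j ≤ b, s b := by
  intro m
  induction m with
  | zero =>
    intro j hj
    have hj' : j = finrank k V := by omega
    subst hj'
    have hE : (B.filter fun b => finrank k V ≤ b) = ∅ := by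
      rw [Finset.filter_eq_empty_iff]
      intro b hb
      have := ((hB b).1 hb).1
      omega
    rw [hE, Finset.prod_empty, Finset.sum_empty, SS_top hW, cps_bot, trs_bot]
    exact ⟨rfl, rfl⟩
  | succ m ih =>
    intro j hj
    obtain ⟨i1, i2⟩ := ih (j + 1) (by omega)
    by_cases hP : SS N ρ (j + 1) = SS N ρ j
    · have hE : (B.filter fun b => j ≤ b) = B.filter fun b => j + 1 ≤ b := by
        ext b
        simp only [Finset.mem_filter]
        refine ⟨fun h => ⟨h.1, ?_⟩, fun h => ⟨h.1, by omega⟩⟩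
        rcases Nat.lt_or_ge j b with h' | h'
        · exact h'
        · have : b = j := by omega
          subst this
          exact absurd hP ((hB b).1 h.1).2
      rw [hE, ← hP]
      exact ⟨i1, i2⟩
    · have hjB : j ∈ B := (hB j).2 ⟨by omega, hP⟩
      have hE : (B.filter fun b => j ≤ b) = insert j (B.filter fun b => j + 1 ≤ b) := by
        ext b
        simp only [Finset.mem_filter, Finset.mem_insert]
        constructor
        · rintro ⟨h, h'⟩
          by_cases hb : b = j
          · exact Or.inl hb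
          · exact Or.inr ⟨h, by omega⟩
        · rintro (rfl | ⟨h, h'⟩)
          · exact ⟨hjB, le_rfl⟩
          · exact ⟨h, by omega⟩
      have hn : j ∉ B.filter fun b => j + 1 ≤ b := by
        simp
      obtain ⟨-, c1, c2⟩ := h2 k V F (SS N ρ (j + 1)) (SS N ρ j) (s j) (SS_anti N ρ j)
        (fun x hx => F_SS hW (j + 1) hx) (hs j hP)
      rw [hf j hP] at c1 c2
      rw [hE, Finset.prod_insert hn, Finset.sum_insert hn, c1, c2, i1, i2]
      refine ⟨?_, ?_⟩
      · rw [pow_one, mul_comm]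
      · rw [Nat.cast_one, mul_one, add_comm]

end

end La

open La in
theorem t_LA (h1 : S_TRC) (h2 : S_CPS) (h3 : S_PAIR) : S_LA := by
  classical
  intro k V _ _ _ _ _ G _ N F J ρ D q w hW hd
  have hd' : ∀ j, finrank k ↥(SS N ρ j) ≤ finrank k ↥(SS N ρ (j + 1)) + 1 := hd
  choose z s hz hz' hzc hs hsx hf using step hW hd'
  have hq : (q : k) ≠ 0 := hW.q0
  have hDc : (D.card : k) ≠ 0 := by
    rw [Nat.cast_ne_zero]
    exact (Finset.card_pos.2 hW.ne).ne'
  set n := finrank k V with hn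
  set s' : ℕ → k := fun j => if h : SS N ρ (j + 1) ≠ SS N ρ j then s j h else 0 with hs'
  have s'_pos : ∀ j (h : SS N ρ (j + 1) ≠ SS N ρ j), s' j = s j h := fun j h => dif_pos h
  set B : Finset ℕ := (Finset.range n).filter fun j => SS N ρ (j + 1) ≠ SS N ρ j with hBd
  have hB : ∀ j, j ∈ B ↔ j < n ∧ SS N ρ (j + 1) ≠ SS N ρ j := fun j => by
    rw [hBd, Finset.mem_filter, Finset.mem_range]
  have key := down h2 hW s' (fun j hj x hx => by rw [s'_pos j hj]; exact hsx j hj x hx) hf B hB
  refine ⟨B, s', fun j hj => ?_, ?_, ?_⟩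
  · have hP := ((hB j).1 hj).2
    rw [s'_pos j hP]
    refine h3 k V G N F J ρ D q w hW j (z j hP) (s j hP) (hz j hP).1 (hz j hP).2
      (fun h => hz' j hP ⟨(hz j hP).1, h⟩) (fun x hx hx' => ?_) (hs j hP).2
    obtain ⟨c, hc⟩ := hzc j hP x ⟨hx, hx'⟩
    exact ⟨c, hc.2⟩
  · have := (key n 0 (by omega)).1
    rw [SS_zero] at this
    rw [this]
    congr 1
    exact Finset.filter_true_of_mem fun b _ => Nat.zero_le b
  · -- the average of the traces
    have hrel : ∀ d : G, N * (F * ρ d) = (q : k) • (F * ρ d * N) := by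
      intro d
      rw [← mul_assoc, hW.rel, smul_mul_assoc, mul_assoc, hW.com, mul_assoc]
    have hpres : ∀ d j, ∀ x ∈ KN N j, (F * ρ d) x ∈ KN N j := fun d j x hx =>
      (h1 k V N (F * ρ d) q hW.nil (hrel d)).1 j x hx hq
    have htr : ∀ d, LinearMap.trace k V (F * ρ d) =
        ∑ j ∈ Finset.range n, (q : k) ^ j * trs (F * ρ d) (KN N j) := fun d =>
      (h1 k V N (F * ρ d) q hW.nil (hrel d)).2 hq
    -- the averaged operator
    set y : End k V := (D.card : k)⁻¹ • ∑ d ∈ D, F * ρ d with hy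
    have hyx : ∀ x, y x = F ((D.card : k)⁻¹ • ∑ d ∈ D, ρ d x) := by
      intro x
      rw [hy, LinearMap.smul_apply, LinearMap.sum_apply, map_smul, map_sum]
      rfl
    have hsum : ∀ j, (D.card : k)⁻¹ * ∑ d ∈ D, trs (F * ρ d) (KN N j) = trs y (KN N j) := by
      intro j
      rw [hy, trs_smul, trs_sum]
      · exact fun d _ => hpres d j
      · intro x hx
        rw [LinearMap.sum_apply]
        exact (KN N j).sum_mem fun d _ => hpres d j x hx
    have hle : ∀ j, SS N ρ j ≤ KN N j := fun j x hx => ⟨hW.fix hx.1, hx.2⟩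
    have hmem : ∀ j, ∀ x ∈ KN N j, y x ∈ SS N ρ j := by
      intro j x hx
      rw [hyx]
      refine F_SS hW j ⟨fun g => ?_, ?_⟩
      · rw [map_smul, map_sum]
        congr 1
        rw [← hW.avg g x hx.1]
        refine Finset.sum_congr rfl fun d _ => ?_
        rw [map_mul]
        rfl
      · obtain ⟨u, hu⟩ := hx.2
        refine Submodule.smul_mem _ _ (Submodule.sum_mem _ fun d _ => ⟨ρ d u, ?_⟩)
        have h5 : N ^ j * ρ d = ρ d * N ^ j := by
          have : Commute N (ρ d) := hW.com d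
          exact this.pow_left j
        have h6 := congrArg (fun y : End k V => y u) h5
        have h7 : (N ^ j) (ρ d u) = ρ d ((N ^ j) u) := h6
        rw [h7, hu]
    have hid : ∀ j, ∀ x ∈ SS N ρ j, y x = F x := by
      intro j x hx
      rw [hyx]
      congr 1
      have : ∑ d ∈ D, ρ d x = ∑ d ∈ D, x := Finset.sum_congr rfl fun d _ => hx.1 d
      rw [this, Finset.sum_const, ← Nat.cast_smul_eq_nsmul k, smul_smul, inv_mul_cancel₀ hDc,
        one_smul]
    have hKN : ∀ j, trs y (KN N j) = trs F (SS N ρ j) := by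
      intro j
      obtain ⟨-, -, c2⟩ := h2 k V y (SS N ρ j) (KN N j) 0 (hle j)
        (fun x hx => hmem j x (hle j hx)) (fun x hx => by
          rw [zero_smul, sub_zero]
          exact hmem j x hx)
      rw [c2, zero_mul, add_zero]
      exact trs_congr _ _ _ (fun x hx => F_SS hW j hx) (hid j)
    have e1 : (D.card : k)⁻¹ * ∑ d ∈ D, LinearMap.trace k V (F * ρ d) =
        ∑ j ∈ Finset.range n, (q : k) ^ j * ∑ b ∈ B with j ≤ b, s' b := by
      rw [Finset.sum_congr rfl fun d _ => htr d, Finset.sum_comm, Finset.mul_sum]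
      refine Finset.sum_congr rfl fun j hj => ?_
      rw [← Finset.mul_sum, mul_left_comm, hsum j, hKN j,
        (key (n - j) j (by have := Finset.mem_range.1 hj; omega)).2]
    rw [e1]
    simp only [Finset.mul_sum]
    rw [Finset.sum_comm' (t' := B) (s' := fun b => Finset.range (b + 1))]
    · refine Finset.sum_congr rfl fun b _ => Finset.sum_congr rfl fun i _ => mul_comm _ _
    · intro x b
      simp only [Finset.mem_range, Finset.mem_filter]
      constructor
      · rintro ⟨h, hb, h'⟩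
        exact ⟨by omega, hb⟩
      · rintro ⟨h, hb⟩
        have := ((hB b).1 hb).1
        exact ⟨by omega, hb, by omega⟩

end Pool.Agent.NH52.WN
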