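import Pool.Agent.NH52.WN.Stm

/-!
# Project WN, WN-1: the logarithm of a unipotent isometry

The first part is a copy of `Pool/Agent/NH57/WM/Log.lean`.
-/

set_option autoImplicit false

namespace Pool.Agent.NH52.WN

open Polynomial Module

namespace LogJ

section log

variable {k : Type*} [Field k] [CharZero k] {R : Type*} [Ring R] [Algebra k R]

/-- the polynomial `binomial (X, j)` -/
noncomputable def bp (k : Type*) [Field k] (j : ℕ) : k[X] :=
  C ((j.factorial : k)⁻¹) * descPochhammer k j

theorem bp_eval (m j : ℕ) : (bp k j).eval (m : k) = (m.choose j : k) := by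
  unfold bp
  rw [eval_mul, eval_C, descPochhammer_eval_eq_descFactorial, Nat.descFactorial_eq_factorial_mul_choose,
    Nat.cast_mul, ← mul_assoc, inv_mul_cancel₀, one_mul]
  exact_mod_cast Nat.factorial_ne_zero j

theorem pow_eq_sum {t : R} {d : ℕ} (hd : (t - 1) ^ d = 0) (m : ℕ) :
    t ^ m = ∑ j ∈ Finset.range d, (bp k j).eval (m : k) • (t - 1) ^ j := by
  have h1 : t ^ m = ∑ j ∈ Finset.range (m + 1), (m.choose j : k) • (t - 1) ^ j := by
    have h2 : t = (t - 1) + 1 := by abel
    conv_lhs => rw [h2]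
    rw [(Commute.one_right (t - 1)).add_pow]
    refine Finset.sum_congr rfl fun j _ => ?_
    rw [one_pow, mul_one, Nat.cast_smul_eq_nsmul, nsmul_eq_mul, (Nat.cast_commute _ _).eq]
  have h2 : ∀ M : ℕ, m + 1 ≤ M → d ≤ M →
      ∑ j ∈ Finset.range M, (m.choose j : k) • (t - 1) ^ j = t ^ m ∧
      ∑ j ∈ Finset.range M, (m.choose j : k) • (t - 1) ^ j =
        ∑ j ∈ Finset.range d, (m.choose j : k) • (t - 1) ^ j := by
    intro M hM1 hM2
    constructor
    · rw [h1]
      symm
      refine Finset.sum_subset (Finset.range_mono hM1) fun j _ hj => ?_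
      rw [Finset.mem_range, not_lt] at hj
      rw [Nat.choose_eq_zero_of_lt (by omega), Nat.cast_zero, zero_smul]
    · symm
      refine Finset.sum_subset (Finset.range_mono hM2) fun j _ hj => ?_
      rw [Finset.mem_range, not_lt] at hj
      rw [pow_eq_zero_of_le hj hd, smul_zero]
  obtain ⟨h3, h4⟩ := h2 (max (m + 1) d) (le_max_left _ _) (le_max_right _ _)
  rw [← h3, h4]
  refine Finset.sum_congr rfl fun j _ => ?_
  rw [bp_eval]

/-- the logarithm -/
theorem exists_log (k : Type*) [Field k] [CharZero k] [Algebra k R] {t : R}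
    (ht : IsNilpotent (t - 1)) : ∃ N u u' : R, N = (t - 1) * u ∧ N = u * (t - 1) ∧ u * u' = 1 ∧
      u' * u = 1 ∧ (∀ (s s' : R) (q : ℕ), s * s' = 1 → s' * s = 1 → s * t * s' = t ^ q →
        s * N * s' = (q : k) • N) ∧ ∃ d : ℕ, (t - 1) ^ (d + 1) = 0 ∧
        N = ∑ j ∈ Finset.range (d + 1), ((derivative (bp k j)).eval 0) • (t - 1) ^ j := by
  obtain ⟨d₀, hd₀⟩ := ht
  obtain ⟨d, hd, hd1⟩ : ∃ d : ℕ, (t - 1) ^ (d + 1) = 0 ∧ 1 ≤ d :=
    ⟨d₀ + 1, pow_eq_zero_of_le (by omega) hd₀, by omega⟩
  set c : ℕ → k := fun j => (derivative (bp k j)).eval 0 with hc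
  have hc0 : c 0 = 0 := by simp [hc, bp]
  have hc1 : c 1 = 1 := by simp [hc, bp]
  set N : R := ∑ j ∈ Finset.range (d + 1), c j • (t - 1) ^ j with hN
  set v : R := ∑ j ∈ Finset.range (d - 1), c (j + 2) • (t - 1) ^ j with hv
  have hYv : Commute (t - 1) v := by
    rw [hv]
    exact Commute.sum_right _ _ _ fun j _ => ((Commute.refl (t - 1)).pow_right j).smul_right _
  set u : R := 1 + (t - 1) * v with hu
  have hYu : Commute (t - 1) u := by
    rw [hu]
    exact (Commute.one_right _).add_right ((Commute.refl _).mul_right hYv)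
  have hN1 : N = (t - 1) * u := by
    rw [hN, Finset.sum_range_succ', hc0, zero_smul, add_zero]
    have hdd : Finset.range d = Finset.range ((d - 1) + 1) := by
      rw [Nat.sub_add_cancel hd1]
    rw [hdd, Finset.sum_range_succ', zero_add, hc1, one_smul, pow_one, hu, hv, mul_add, mul_one,
      add_comm, Finset.mul_sum, Finset.mul_sum]
    congr 1
    refine Finset.sum_congr rfl fun j _ => ?_
    have e1 : (t - 1) ^ (j + 1 + 1) = (t - 1) * ((t - 1) * (t - 1) ^ j) := by
      rw [pow_succ', pow_succ']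
    rw [e1, mul_smul_comm, mul_smul_comm]
  have hnil : IsNilpotent ((t - 1) * v) := hYv.isNilpotent_mul_right ⟨d + 1, hd⟩
  have huu : IsUnit u := by
    rw [hu]
    exact hnil.isUnit_one_add
  obtain ⟨u₀, hu₀⟩ := huu
  refine ⟨N, u, ((u₀⁻¹ : Rˣ) : R), hN1, by rw [hN1, hYu.eq], ?_, ?_, ?_, d, hd, hN⟩
  · rw [← hu₀, Units.mul_inv]
  · rw [← hu₀, Units.inv_mul]
  intro s s' q hs hs' hrel
  have hpow : ∀ (x : R) (j : ℕ), s * x ^ j * s' = (s * x * s') ^ j := by
    intro x j
    induction j with
    | zero => rw [pow_zero, pow_zero, mul_one, hs]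
    | succ j ih =>
      rw [pow_succ, pow_succ, ← ih]
      calc s * (x ^ j * x) * s' = s * x ^ j * 1 * x * s' := by simp only [mul_one, mul_assoc]
        _ = s * x ^ j * (s' * s) * x * s' := by rw [hs']
        _ = _ := by simp only [mul_assoc]
  set Z : R := s * (t - 1) * s' with hZ
  have hkey : ∀ m : ℕ, ∑ j ∈ Finset.range (d + 1), (bp k j).eval (m : k) • Z ^ j =
      ∑ j ∈ Finset.range (d + 1), (bp k j).eval ((q * m : ℕ) : k) • (t - 1) ^ j := by
    intro m
    rw [← pow_eq_sum hd, pow_mul, ← hrel, ← hpow, pow_eq_sum (k := k) hd m, Finset.mul_sum,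
      Finset.sum_mul]
    refine Finset.sum_congr rfl fun j _ => ?_
    rw [mul_smul_comm, smul_mul_assoc, hpow]
  rw [← sub_eq_zero, ← Module.forall_dual_apply_eq_zero_iff k]
  intro f
  have hpoly : ∑ j ∈ Finset.range (d + 1), C (f (Z ^ j)) * bp k j =
      ∑ j ∈ Finset.range (d + 1), C (f ((t - 1) ^ j)) * (bp k j).comp (C (q : k) * X) := by
    refine Polynomial.eq_of_infinite_eval_eq _ _ ?_
    refine Set.Infinite.mono (s := Set.range fun m : ℕ => (m : k)) ?_
      (Set.infinite_range_of_injective Nat.cast_injective)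
    rintro _ ⟨m, rfl⟩
    have h1 := congrArg f (hkey m)
    rw [map_sum, map_sum] at h1
    simp only [map_smul, smul_eq_mul] at h1
    rw [Set.mem_ofPred_eq, eval_finsetSum, eval_finsetSum]
    simp only [eval_mul, eval_C, eval_comp, eval_X]
    rw [Finset.sum_congr rfl fun j _ => mul_comm (f (Z ^ j)) _, h1]
    refine Finset.sum_congr rfl fun j _ => ?_
    rw [mul_comm]
    push_cast
    rfl
  have hder := congrArg (fun p => (derivative p).eval 0) hpoly
  simp only [derivative_sum, derivative_C_mul, derivative_comp, derivative_X, mul_one,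
    eval_finsetSum, eval_mul, eval_C, eval_comp, eval_X, mul_zero] at hder
  have h1 : s * N * s' = ∑ j ∈ Finset.range (d + 1), c j • Z ^ j := by
    rw [hN, Finset.mul_sum, Finset.sum_mul]
    refine Finset.sum_congr rfl fun j _ => ?_
    rw [mul_smul_comm, smul_mul_assoc, hpow]
  rw [h1, hN, map_sub, map_smul, map_sum, map_sum, sub_eq_zero]
  simp only [map_smul, smul_eq_mul, Finset.mul_sum]
  rw [Finset.sum_congr rfl fun j _ => mul_comm (c j) (f (Z ^ j)), hder]
  refine Finset.sum_congr rfl fun j _ => ?_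
  ring

end log

theorem bp_eval_zero (k : Type*) [Field k] [CharZero k] (j : ℕ) :
    (bp k j).eval 0 = if j = 0 then 1 else 0 := by
  have h := bp_eval (k := k) 0 j
  rw [Nat.cast_zero] at h
  rw [h]
  cases j with
  | zero => simp
  | succ j => simp

/-- the logarithm of an isometry is skew -/
theorem skew {k V : Type} [Field k] [CharZero k] [AddCommGroup V] [Module k V] {t : End k V}
    {d : ℕ} (hd : (t - 1) ^ (d + 1) = 0) (J : V →ₗ[k] V →ₗ[k] k)
    (hJ : ∀ x y, J (t x) (t y) = J x y) (x y : V) :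
    J ((∑ j ∈ Finset.range (d + 1), ((derivative (bp k j)).eval 0) • (t - 1) ^ j) x) y =
      - J x ((∑ j ∈ Finset.range (d + 1), ((derivative (bp k j)).eval 0) • (t - 1) ^ j) y) := by
  have hm : ∀ (m : ℕ) (x y : V), J ((t ^ m) x) ((t ^ m) y) = J x y := by
    intro m
    induction m with
    | zero => intro x y; rfl
    | succ m ih =>
      intro x y
      rw [pow_succ, End.mul_apply, End.mul_apply, ih, hJ]
  have hm2 : ∀ m : ℕ, ∑ i ∈ Finset.range (d + 1), ∑ j ∈ Finset.range (d + 1),
      J (((t - 1) ^ i) x) (((t - 1) ^ j) y) * ((bp k i).eval (m : k) * (bp k j).eval (m : k)) =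
        J x y := by
    intro m
    rw [← hm m x y, pow_eq_sum (k := k) hd m]
    simp only [LinearMap.sum_apply, LinearMap.smul_apply, map_sum, map_smul, smul_eq_mul,
      Finset.mul_sum]
    rw [Finset.sum_comm]
    refine Finset.sum_congr rfl fun i _ => Finset.sum_congr rfl fun j _ => ?_
    ring
  have hpoly : ∑ i ∈ Finset.range (d + 1), ∑ j ∈ Finset.range (d + 1),
      C (J (((t - 1) ^ i) x) (((t - 1) ^ j) y)) * (bp k i * bp k j) = C (J x y) := by
    refine Polynomial.eq_of_infinite_eval_eq _ _ ?_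
    refine Set.Infinite.mono (s := Set.range fun m : ℕ => (m : k)) ?_
      (Set.infinite_range_of_injective Nat.cast_injective)
    rintro _ ⟨m, rfl⟩
    rw [Set.mem_ofPred_eq, eval_finsetSum, eval_C, ← hm2 m]
    refine Finset.sum_congr rfl fun i _ => ?_
    rw [eval_finsetSum]
    refine Finset.sum_congr rfl fun j _ => ?_
    rw [eval_mul, eval_mul, eval_C]
  have hder := congrArg (fun p => (derivative p).eval 0) hpoly
  simp only [derivative_sum, derivative_mul, derivative_C, eval_zero,
    eval_finsetSum, eval_mul, eval_add, eval_C, bp_eval_zero, zero_mul, zero_add, mul_add,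
    Finset.sum_add_distrib] at hder
  rw [eq_neg_iff_add_eq_zero]
  refine Eq.trans ?_ hder
  simp only [LinearMap.sum_apply, LinearMap.smul_apply, map_sum, map_smul, smul_eq_mul]
  congr 1
  · refine Finset.sum_congr rfl fun i _ => ?_
    rw [Finset.sum_eq_single 0]
    · rw [if_pos rfl, pow_zero, End.one_apply, mul_one, mul_comm]
    · intro j _ hj
      rw [if_neg hj, mul_zero, mul_zero]
    · intro h
      exact absurd (Finset.mem_range.2 (Nat.succ_pos d)) h
  · rw [Finset.sum_eq_single (0 : ℕ) (f := fun i => ∑ j ∈ Finset.range (d + 1),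
      J (((t - 1) ^ i) x) (((t - 1) ^ j) y) *
        ((if i = 0 then 1 else 0) * (derivative (bp k j)).eval 0))]
    · refine Finset.sum_congr rfl fun j _ => ?_
      rw [if_pos rfl, pow_zero, End.one_apply, one_mul, mul_comm]
    · intro i _ hi
      refine Finset.sum_eq_zero fun j _ => ?_
      rw [if_neg hi, zero_mul, mul_zero]
    · intro h
      exact absurd (Finset.mem_range.2 (Nat.succ_pos d)) h

end LogJ

theorem t_LOG : S_LOG := by
  intro k V _ _ _ _ t ht
  obtain ⟨N, u, u', h1, h2, h3, h4, h5, d, hd, hN⟩ := LogJ.exists_log k ht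
  refine ⟨N, u, u', h1, h2, h3, h4, h5, fun J hJ x y => ?_⟩
  rw [hN]
  exact LogJ.skew hd J hJ x y

end Pool.Agent.NH52.WN
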