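import Pool.Agent.NH52.WN.Stm

/-!
# WN-4: the eigenvalue of Frobenius (helper83)
-/

set_option autoImplicit false
set_option linter.unusedSectionVars false

namespace Pool.Agent.NH52.WN

open Module

namespace Pair

section

variable {k V : Type} [Field k] [AddCommGroup V] [Module k V] {N : End k V}
  {J : V →ₗ[k] V →ₗ[k] k}

theorem flipL (h : ∀ x y, J (N x) y = - J x (N y)) (b : ℕ) :
    ∀ x y, J ((N ^ b) x) y = (-1 : k) ^ b * J x ((N ^ b) y) := by
  induction b with
  | zero => intro x y; simp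
  | succ b ih =>
    intro x y
    have e1 : (N ^ (b + 1)) x = N ((N ^ b) x) := by rw [pow_succ', Module.End.mul_apply]
    have e2 : (N ^ (b + 1)) y = (N ^ b) (N y) := by rw [pow_succ, Module.End.mul_apply]
    rw [e1, e2, h, ih, pow_succ]
    ring

theorem flipR (h : ∀ x y, J (N x) y = - J x (N y)) (b : ℕ) (x y : V) :
    J x ((N ^ b) y) = (-1 : k) ^ b * J ((N ^ b) x) y := by
  rw [flipL h b x y, ← mul_assoc, ← mul_pow, neg_mul_neg, one_mul, one_pow, one_mul]

theorem ort [FiniteDimensional k V] (h : ∀ x y, J (N x) y = - J x (N y))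
    (nd : ∀ x, (∀ y, J x y = 0) → x = 0) {b : ℕ} {x : V}
    (hx : ∀ z, (N ^ b) z = 0 → J x z = 0) : x ∈ LinearMap.range (N ^ b) := by
  have h1 : J x ∈ (LinearMap.ker (N ^ b)).dualAnnihilator := by
    rw [Submodule.mem_dualAnnihilator]
    intro z hz
    exact hx z hz
  rw [← LinearMap.range_dualMap_eq_dualAnnihilator_ker] at h1
  obtain ⟨φ, hφ⟩ := h1
  have hinj : Function.Injective J := by
    rw [injective_iff_map_eq_zero]
    intro y hy
    exact nd y fun z => by rw [hy]; rfl
  have hsurj : Function.Surjective J :=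
    (LinearMap.injective_iff_surjective_of_finrank_eq_finrank
      (Subspace.dual_finrank_eq (K := k) (V := V)).symm).1 hinj
  obtain ⟨y, rfl⟩ := hsurj φ
  have h2 : x = (N ^ b) ((-1 : k) ^ b • y) := by
    apply hinj
    apply LinearMap.ext
    intro z
    rw [map_smul, map_smul, LinearMap.smul_apply, flipL h, ← hφ]
    show J y ((N ^ b) z) = (-1 : k) ^ b • ((-1 : k) ^ b * J y ((N ^ b) z))
    rw [smul_eq_mul, ← mul_assoc, ← mul_pow, neg_mul_neg, one_mul, one_pow, one_mul]
  rw [h2]
  exact ⟨_, rfl⟩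

theorem powF {F : End k V} {q : ℕ} (h : N * F = (q : k) • (F * N)) (b : ℕ) (x : V) :
    (N ^ b) (F x) = (q : k) ^ b • F ((N ^ b) x) := by
  induction b generalizing x with
  | zero => simp
  | succ b ih =>
    have e0 : ∀ y, N (F y) = (q : k) • F (N y) := fun y => by
      have := congrArg (fun (f : End k V) => f y) h
      simpa using this
    have e1 : (N ^ (b + 1)) (F x) = N ((N ^ b) (F x)) := by rw [pow_succ', Module.End.mul_apply]
    have e2 : (N ^ (b + 1)) x = N ((N ^ b) x) := by rw [pow_succ', Module.End.mul_apply]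
    rw [e1, e2, ih, map_smul, e0, smul_smul, pow_succ]

end

end Pair

theorem t_PAIR : S_PAIR := by
  intro k V _ _ _ _ _ G _ N F J ρ D q w h b z β hz hzb hzb' hl hF
  obtain ⟨z', hz'⟩ := hzb
  have hNz : N z = 0 := h.fix hz
  have hz1 : (N ^ (b + 1)) z' = 0 := by rw [pow_succ', Module.End.mul_apply, hz', hNz]
  have fR := fun b x y => Pair.flipR (J := J) h.skew b x y
  have fL := fun b x y => Pair.flipL (J := J) h.skew b x y
  -- orthogonality to the range
  have o1 : ∀ v, J z' ((N ^ (b + 1)) v) = 0 := fun v => by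
    rw [fR, hz1, map_zero, LinearMap.zero_apply, mul_zero]
  have o2 : ∀ v, J ((N ^ (b + 1)) v) z' = 0 := fun v => by
    rw [fL, hz1, map_zero, mul_zero]
  obtain ⟨y0, hy0, hy0'⟩ : ∃ y0, (N ^ (b + 1)) y0 = 0 ∧ J z' ((N ^ b) y0) ≠ 0 := by
    by_contra hcon
    push Not at hcon
    apply hzb'
    refine Pair.ort h.skew h.nd fun x hx => ?_
    rw [← hz', fL, hcon x hx, mul_zero]
  set y := (N ^ b) y0 with hy
  have hNy : N y = 0 := by rw [hy, ← Module.End.mul_apply, ← pow_succ']; exact hy0
  have comb : ∀ (g : G) (x : V), (N ^ b) (ρ g x) = ρ g ((N ^ b) x) := fun g x => by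
    have : Commute (N ^ b) (ρ g) := Commute.pow_left (h.com g) b
    have := congrArg (fun (f : End k V) => f x) this.eq
    simpa using this
  have hD : (D.card : k) ≠ 0 := by
    have := Finset.card_pos.2 h.ne
    exact_mod_cast this.ne'
  set y1 := (D.card : k)⁻¹ • ∑ d ∈ D, ρ d y with hy1
  have m1 : y1 ∈ inv ρ := by
    intro g
    rw [hy1, map_smul, map_sum, ← h.avg g y hNy]
    congr 1
    exact Finset.sum_congr rfl fun d _ => by rw [map_mul, Module.End.mul_apply]
  have m2 : y1 ∈ LinearMap.range (N ^ b) := by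
    refine Submodule.smul_mem _ _ (Submodule.sum_mem _ fun d _ => ?_)
    exact ⟨ρ d y0, comb d y0⟩
  have hinvd : ∀ d, J z' (ρ d y) = J z' y := by
    intro d
    have e1 : J (ρ d⁻¹ z') (ρ d⁻¹ (ρ d y)) = J z' (ρ d y) := h.iso _ _ _
    have e2 : ρ d⁻¹ (ρ d y) = y := by
      rw [← Module.End.mul_apply, ← map_mul, inv_mul_cancel, map_one, Module.End.one_apply]
    rw [e2] at e1
    have e3 : J (ρ d⁻¹ z' - z') y = 0 := by
      rw [hy, fR, map_sub, comb, hz', hz d⁻¹, sub_self, map_zero, LinearMap.zero_apply, mul_zero]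
    rw [map_sub, LinearMap.sub_apply, sub_eq_zero] at e3
    rw [← e1, e3]
  have e1 : J z' y1 = J z' y := by
    rw [hy1, map_smul, map_sum, Finset.sum_congr rfl (fun d _ => hinvd d), Finset.sum_const,
      nsmul_eq_mul, smul_eq_mul, ← mul_assoc, inv_mul_cancel₀ hD, one_mul]
  obtain ⟨c, v, hc⟩ := hl y1 m1 m2
  have e2 : J z' z ≠ 0 := by
    intro h0
    apply hy0'
    have e3 : y1 = (N ^ (b + 1)) v + c • z := by rw [hc, sub_add_cancel]
    rw [← e1, e3, map_add, o1, map_smul, h0, smul_zero, add_zero]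
  have e4 : J z' z = (-1 : k) ^ b * J z z' := by
    conv_lhs => rw [← hz']
    rw [fR, hz']
  have e5 : J z z' = (-1 : k) ^ b * J z' z := by
    rw [e4, ← mul_assoc, ← mul_pow, neg_mul_neg, one_mul, one_pow, one_mul]
  obtain ⟨κ', hκ⟩ := hF
  have e6 : F z = β • z + (N ^ (b + 1)) κ' := by rw [hκ]; abel
  constructor
  · have e7 : J z z' = (-1 : k) ^ w * J z' z := h.sym z' z
    rw [e5] at e7
    have e8 := mul_right_cancel₀ e2 e7
    rcases Nat.mod_two_eq_zero_or_one b with hb | hb <;>
      rcases Nat.mod_two_eq_zero_or_one w with hw | hw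
    · rw [hb, hw]
    · rw [(Nat.even_iff.2 hb).neg_one_pow, (Nat.odd_iff.2 hw).neg_one_pow] at e8
      exfalso
      have : (2 : k) = 0 := by linear_combination e8
      exact two_ne_zero this
    · rw [(Nat.odd_iff.2 hb).neg_one_pow, (Nat.even_iff.2 hw).neg_one_pow] at e8
      exfalso
      have : (2 : k) = 0 := by linear_combination -e8
      exact two_ne_zero this
    · rw [hb, hw]
  · have f1 : J (F z') (F z) = (q : k) ^ w * J z' z := h.sim z' z
    have f2 : J (F z') ((N ^ (b + 1)) κ') = 0 := by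
      rw [fR, Pair.powF h.rel, hz1, map_zero, smul_zero, map_zero, LinearMap.zero_apply, mul_zero]
    have f3 : J (F z') z = β * (q : k) ^ b * J z' z := by
      conv_lhs => rw [← hz']
      rw [fR, Pair.powF h.rel, hz', e6, map_smul, LinearMap.smul_apply, map_add, LinearMap.add_apply,
        o2, add_zero, map_smul, LinearMap.smul_apply, e5]
      simp only [smul_eq_mul]
      have : ((-1 : k) ^ b) * (-1) ^ b = 1 := by rw [← mul_pow, neg_mul_neg, one_mul, one_pow]
      linear_combination (q : k) ^ b * β * J z' z * this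
    rw [e6, map_add, f2, add_zero, map_smul, smul_eq_mul, f3] at f1
    have f4 : (β ^ 2 * (q : k) ^ b) * J z' z = (q : k) ^ w * J z' z := by
      linear_combination f1
    exact mul_right_cancel₀ e2 f4

end Pool.Agent.NH52.WN
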