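import Pool.Agent.NH52.WN.Stm

/-!
# Project WN, job WN-2: the trace and the filtration `ker N ∩ im N ^ j`
-/

set_option autoImplicit false

namespace Pool.Agent.NH52.WN

open Module Polynomial

namespace Trc

section

variable {k V : Type} [Field k] [AddCommGroup V] [Module k V] {N y : End k V} {q : k}

theorem rel_apply (h : N * y = q • (y * N)) (x : V) : N (y x) = q • y (N x) := by
  have := LinearMap.congr_fun h x
  rwa [Module.End.mul_apply, LinearMap.smul_apply, Module.End.mul_apply] at this

theorem rel_pow (h : N * y = q • (y * N)) (j : ℕ) (x : V) :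
    (N ^ j) (y x) = q ^ j • y ((N ^ j) x) := by
  induction j with
  | zero => simp
  | succ j ih =>
    rw [pow_succ', Module.End.mul_apply, ih, map_smul, rel_apply h, smul_smul,
      Module.End.mul_apply, pow_succ]

theorem stab_range (h : N * y = q • (y * N)) (hq : q ≠ 0) (j : ℕ) :
    ∀ x ∈ LinearMap.range (N ^ j), y x ∈ LinearMap.range (N ^ j) := by
  rintro _ ⟨v, rfl⟩
  refine ⟨(q ^ j)⁻¹ • y v, ?_⟩
  rw [map_smul, rel_pow h, smul_smul, inv_mul_cancel₀ (pow_ne_zero _ hq), one_smul]

theorem trs_of {W : Submodule k V} (h : ∀ x ∈ W, y x ∈ W) :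
    trs y W = LinearMap.trace k W (y.restrict h) := by
  unfold trs
  rw [dif_pos h]

theorem step [FiniteDimensional k V] (h : N * y = q • (y * N)) (hq : q ≠ 0) (W : Submodule k V)
    (hy : ∀ x ∈ W, y x ∈ W) :
    trs y W = trs y (W ⊓ LinearMap.ker N) + q * trs y (W.map N) := by
  have hK : ∀ x ∈ W ⊓ LinearMap.ker N, y x ∈ W ⊓ LinearMap.ker N := by
    rintro x ⟨h1, h2⟩
    refine ⟨hy x h1, ?_⟩
    have h3 : N x = 0 := h2
    show N (y x) = 0
    rw [rel_apply h, h3, map_zero, smul_zero]
  have hI : ∀ x ∈ W.map N, y x ∈ W.map N := by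
    rintro _ ⟨w, hw, rfl⟩
    refine ⟨q⁻¹ • y w, W.smul_mem _ (hy w hw), ?_⟩
    rw [map_smul, rel_apply h, smul_smul, inv_mul_cancel₀ hq, one_smul]
  rw [trs_of hy, trs_of hK, trs_of hI]
  let f : W →ₗ[k] W.map N := N.restrict (p := W) (q := W.map N) fun x hx => ⟨x, hx, rfl⟩
  have hfv : ∀ w : W, (f w : V) = N (w : V) := fun _ => rfl
  have hfs : Function.Surjective f := by
    rintro ⟨_, w, hw, rfl⟩
    exact ⟨⟨w, hw⟩, rfl⟩
  obtain ⟨j, hj⟩ := LinearMap.exists_rightInverse_of_surjective f (LinearMap.range_eq_top.2 hfs)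
  have hjx : ∀ x, f (j x) = x := fun x => LinearMap.congr_fun hj x
  let i : ↥(W ⊓ LinearMap.ker N) →ₗ[k] W := Submodule.inclusion inf_le_left
  have hiv : ∀ x : ↥(W ⊓ LinearMap.ker N), ((i x : W) : V) = (x : V) := fun _ => rfl
  have hmem : ∀ w : W, ((w - j (f w) : W) : V) ∈ W ⊓ LinearMap.ker N := by
    intro w
    refine ⟨(w - j (f w)).2, ?_⟩
    show N ((w - j (f w) : W) : V) = 0
    rw [← hfv, map_sub, hjx, sub_self]
    rfl
  let π : W →ₗ[k] ↥(W ⊓ LinearMap.ker N) :=
    { toFun := fun w => ⟨((w - j (f w) : W) : V), hmem w⟩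
      map_add' := fun x y => by
        apply Subtype.ext
        show ((x + y - j (f (x + y)) : W) : V) = ((x - j (f x) : W) : V) + ((y - j (f y) : W) : V)
        rw [← Submodule.coe_add]
        congr 1
        rw [map_add, map_add]
        abel
      map_smul' := fun c x => by
        apply Subtype.ext
        show ((c • x - j (f (c • x)) : W) : V) = c • ((x - j (f x) : W) : V)
        rw [← Submodule.coe_smul]
        congr 1
        rw [map_smul, map_smul, smul_sub] }
  have hπ : ∀ w, i (π w) = w - j (f w) := fun _ => rfl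
  set g : W →ₗ[k] W := y.restrict hy with hg
  have hgv : ∀ w : W, ((g w : W) : V) = y (w : V) := fun _ => rfl
  have hsplit : g = (g ∘ₗ i) ∘ₗ π + (g ∘ₗ j) ∘ₗ f := by
    apply LinearMap.ext
    intro x
    rw [LinearMap.add_apply, LinearMap.comp_apply, LinearMap.comp_apply, LinearMap.comp_apply,
      LinearMap.comp_apply, ← map_add]
    congr 1
    rw [hπ, sub_add_cancel]
  have h1 : π ∘ₗ (g ∘ₗ i) = y.restrict hK := by
    apply LinearMap.ext
    intro x
    have h2 : f (g (i x)) = 0 := by
      apply Subtype.ext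
      rw [hfv, hgv, hiv, rel_apply h, LinearMap.mem_ker.1 x.2.2, map_zero, smul_zero]
      rfl
    apply Subtype.ext
    show ((g (i x) - j (f (g (i x))) : W) : V) = y (x : V)
    rw [h2, map_zero, sub_zero, hgv, hiv]
  have h2 : f ∘ₗ (g ∘ₗ j) = q • y.restrict hI := by
    apply LinearMap.ext
    intro x
    apply Subtype.ext
    show N (y ((j x : W) : V)) = q • y (x : V)
    rw [rel_apply h, ← hfv, hjx]
  rw [hsplit, map_add, LinearMap.trace_comp_comm', h1, LinearMap.trace_comp_comm', h2, map_smul,
    smul_eq_mul]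

theorem trs_top [FiniteDimensional k V] : trs y ⊤ = LinearMap.trace k V y := by
  rw [trs_of (W := ⊤) (fun _ _ => Submodule.mem_top),
    ← LinearMap.trace_conj' (y.restrict (p := ⊤) (q := ⊤) fun _ _ => Submodule.mem_top)
      Submodule.topEquiv]
  congr 1

theorem trs_bot : trs y ⊥ = 0 := by
  rw [trs_of (W := ⊥) (fun x hx => by
    rw [Submodule.mem_bot] at hx ⊢
    rw [hx, map_zero])]
  have : ∀ f : (⊥ : Submodule k V) →ₗ[k] (⊥ : Submodule k V), f = 0 := fun f =>
    LinearMap.ext fun x => Subsingleton.elim _ _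
  rw [this (y.restrict _), map_zero]

end

end Trc

open Trc in
theorem t_TRC : S_TRC := by
  intro k V _ _ _ _ N y q hN h
  refine ⟨?_, ?_⟩
  · rintro j x ⟨h1, h2⟩ hq
    refine ⟨?_, stab_range h hq j x h2⟩
    have h3 : N x = 0 := h1
    show N (y x) = 0
    rw [rel_apply h, h3, map_zero, smul_zero]
  · intro hq
    have hs : ∀ j, trs y (LinearMap.range (N ^ j)) =
        trs y (KN N j) + q * trs y (LinearMap.range (N ^ (j + 1))) := by
      intro j
      rw [step h hq _ (stab_range h hq j)]
      congr 2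
      · unfold KN
        rw [inf_comm]
      · congr 1
        rw [pow_succ', Module.End.mul_eq_comp, LinearMap.range_comp]
    have hsum : ∀ n : ℕ, trs y (LinearMap.range (N ^ 0)) =
        ∑ j ∈ Finset.range n, q ^ j * trs y (KN N j) + q ^ n * trs y (LinearMap.range (N ^ n)) := by
      intro n
      induction n with
      | zero => simp
      | succ n ih =>
        rw [ih, Finset.sum_range_succ, hs n, pow_succ]
        ring
    have h0 : N ^ finrank k V = 0 := by
      have h1 := LinearMap.aeval_self_charpoly N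
      rwa [hN.charpoly_eq_X_pow_finrank, map_pow, aeval_X] at h1
    have hn := hsum (finrank k V)
    rw [h0, LinearMap.range_zero, trs_bot, mul_zero, add_zero, pow_zero, Module.End.one_eq_id,
      LinearMap.range_id, trs_top] at hn
    exact hn

end Pool.Agent.NH52.WN
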