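import Pool.Agent.NH52.WN.Stm

/-!
# Project WN, WN-6: the signs are determined by the trace
-/

set_option autoImplicit false

namespace Pool.Agent.NH52.WN

open Finset

namespace Uni

/-- the sum -/
def S (q : ℤ) (b : ℕ) (e : ℕ → ℤ) : ℤ :=
  ∑ j ∈ range (b + 1), e j * (q ^ ((b - j) / 2) * ∑ i ∈ range (j + 1), q ^ i)

theorem S_succ (q : ℤ) (b : ℕ) (e : ℕ → ℤ) (h : e (b + 1) = 0) :
    S q (b + 2) e = e (b + 2) * ∑ i ∈ range (b + 3), q ^ i + q * S q b e := by
  unfold S
  rw [sum_range_succ (fun j => e j * (q ^ ((b + 2 - j) / 2) * ∑ i ∈ range (j + 1), q ^ i)) (b + 2),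
    sum_range_succ (fun j => e j * (q ^ ((b + 2 - j) / 2) * ∑ i ∈ range (j + 1), q ^ i)) (b + 1),
    h, zero_mul, add_zero, add_comm, Nat.sub_self, Nat.zero_div, pow_zero, one_mul,
    mul_sum (range (b + 1))]
  congr 1
  refine sum_congr rfl fun j hj => ?_
  rw [mem_range] at hj
  have e1 : (b + 2 - j) / 2 = (b - j) / 2 + 1 := by omega
  rw [e1, pow_succ]
  ring

theorem geo2 (j : ℕ) : ∑ i ∈ range j, (2 : ℤ) ^ i = 2 ^ j - 1 := by
  have h := mul_geom_sum (2 : ℤ) j
  linarith

theorem bound (e : ℕ → ℤ) (he : ∀ j, |e j| ≤ 2) : ∀ b : ℕ,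
    (∀ j, e j ≠ 0 → j % 2 = b % 2) → |S 2 b e| ≤ 2 ^ (b + 3) - 4
  | 0, _ => by
      have h1 := he 0
      simp only [S, zero_add, sum_range_one, Nat.sub_self, Nat.zero_div, pow_zero, mul_one]
      norm_num
      linarith
  | 1, hp => by
      have h1 := he 1
      have h0 : e 0 = 0 := by
        by_contra h
        have := hp 0 h
        omega
      have h2 : S 2 1 e = e 1 * 3 := by
        unfold S
        rw [sum_range_succ, sum_range_one, h0, zero_mul, zero_add, geo2]
        norm_num
      rw [h2, abs_mul]
      norm_num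
      linarith
  | b + 2, hp => by
      have h0 : e (b + 1) = 0 := by
        by_contra h
        have := hp _ h
        omega
      rw [S_succ 2 b e h0, geo2]
      have h1 := bound e he b fun j hj => by
        have := hp j hj
        omega
      have h2 := he (b + 2)
      have h3 : (1 : ℤ) ≤ 2 ^ (b + 3) := one_le_pow₀ (by norm_num)
      have h4 : |e (b + 2) * (2 ^ (b + 3) - 1)| ≤ 2 * (2 ^ (b + 3) - 1) := by
        rw [abs_mul, abs_of_nonneg (by linarith : (0 : ℤ) ≤ 2 ^ (b + 3) - 1)]
        exact mul_le_mul_of_nonneg_right h2 (by linarith)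
      have h5 : |2 * S 2 b e| ≤ 2 * (2 ^ (b + 3) - 4) := by
        rw [abs_mul, abs_two]
        linarith
      refine (abs_add_le _ _).trans ?_
      have h6 : (2 : ℤ) ^ (b + 2 + 3) = 4 * 2 ^ (b + 3) := by ring
      rw [h6]
      linarith

theorem key (q : ℤ) (hq : 2 ≤ q) (e : ℕ → ℤ) (he : ∀ j, |e j| ≤ 2) : ∀ b : ℕ,
    (∀ j, e j ≠ 0 → j ≤ b → j % 2 = b % 2) → S q b e = 0 → ∀ j ≤ b, e j = 0
  | 0, _, h => by
      intro j hj
      obtain rfl : j = 0 := by omega
      simpa [S] using h
  | 1, hp, h => by
      have h0 : e 0 = 0 := by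
        by_contra h
        have := hp 0 h (by omega)
        omega
      have h2 : S q 1 e = e 1 * (1 + q) := by
        unfold S
        rw [sum_range_succ, sum_range_one, h0, zero_mul, zero_add, sum_range_succ, sum_range_one]
        norm_num
      rw [h2] at h
      intro j hj
      obtain rfl | rfl : j = 0 ∨ j = 1 := by omega
      · exact h0
      · rcases mul_eq_zero.1 h with h | h
        · exact h
        · linarith
  | b + 2, hp, h => by
      have h0 : e (b + 1) = 0 := by
        by_contra h
        have := hp _ h (by omega)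
        omega
      rw [S_succ q b e h0] at h
      have ih := key q hq e he b fun j hj hjb => by
        have := hp j hj (by omega)
        omega
      by_cases hb : e (b + 2) = 0
      · rw [hb, zero_mul, zero_add] at h
        have h1 : S q b e = 0 := by
          rcases mul_eq_zero.1 h with h | h
          · linarith
          · exact h
        intro j hj
        obtain h2 | rfl | rfl : j ≤ b ∨ j = b + 1 ∨ j = b + 2 := by omega
        · exact ih h1 j h2
        · exact h0
        · exact hb
      · exfalso
        rw [geom_sum_succ] at h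
        have h1 : e (b + 2) = q * -(S q b e + e (b + 2) * ∑ i ∈ range (b + 2), q ^ i) := by
          linear_combination h
        set c : ℤ := -(S q b e + e (b + 2) * ∑ i ∈ range (b + 2), q ^ i) with hc
        have hc0 : c ≠ 0 := by
          rintro h2
          rw [h2, mul_zero] at h1
          exact hb h1
        have hc1 : 1 ≤ |c| := Int.one_le_abs hc0
        have h2 := he (b + 2)
        rw [h1, abs_mul, abs_of_nonneg (by linarith : (0 : ℤ) ≤ q)] at h2
        have hq2 : q = 2 := by nlinarith
        subst hq2
        have hc2 : |c| = 1 := by linarith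
        -- cut off the other values
        set e' : ℕ → ℤ := fun j => if j ≤ b then e j else 0 with he'
        have hS : S 2 b e' = S 2 b e := by
          unfold S
          refine sum_congr rfl fun j hj => ?_
          rw [mem_range] at hj
          simp only [he', if_pos (by omega : j ≤ b)]
        have h3 := bound e' (fun j => by
          simp only [he']
          split_ifs
          · exact he j
          · norm_num) b fun j hj => by
            simp only [he'] at hj
            split_ifs at hj with h4
            · have := hp j hj (by omega)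
              omega
            · exact absurd rfl hj
        rw [hS] at h3
        have h4 : S 2 b e = -(c * (2 ^ (b + 3) - 1)) := by
          rw [h1, geo2] at h
          have e1 : (2 : ℤ) ^ (b + 3) = 2 * 2 ^ (b + 2) := by ring
          rw [e1]
          clear_value c
          have e2 : 2 * (S 2 b e + c * (2 * 2 ^ (b + 2) - 1)) = 0 := by linear_combination h
          rcases mul_eq_zero.1 e2 with e3 | e3
          · norm_num at e3
          · linarith
        have h5 : (1 : ℤ) ≤ 2 ^ (b + 3) := one_le_pow₀ (by norm_num)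
        rw [h4, abs_neg, abs_mul, hc2, one_mul,
          abs_of_nonneg (by linarith : (0 : ℤ) ≤ 2 ^ (b + 3) - 1)] at h3
        linarith

end Uni

open Uni

theorem t_UNI : S_UNI := by
  intro q w hq d d' hd hd' h
  have hab : ∀ (d : ℕ → ℤ), (∀ j, d j ≠ 0 → j ≤ w ∧ j % 2 = w % 2 ∧ (d j = 1 ∨ d j = -1)) →
      ∀ j, |d j| ≤ 1 := by
    intro d hd j
    by_cases h0 : d j = 0
    · rw [h0]; norm_num
    · rcases (hd j h0).2.2 with h1 | h1 <;> rw [h1] <;> norm_num
  have he : ∀ j, |d j - d' j| ≤ 2 := by
    intro j
    have h1 := hab d hd j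
    have h2 := hab d' hd' j
    rw [abs_le] at *
    constructor <;> linarith [h1.1, h1.2, h2.1, h2.2]
  have hne : ∀ j, d j - d' j ≠ 0 → j ≤ w ∧ j % 2 = w % 2 := by
    intro j hj
    by_cases h0 : d j = 0
    · have h1 : d' j ≠ 0 := by
        rintro h1
        rw [h0, h1] at hj
        exact hj rfl
      exact ⟨(hd' j h1).1, (hd' j h1).2.1⟩
    · exact ⟨(hd j h0).1, (hd j h0).2.1⟩
  have hS : S (q : ℤ) w (fun j => d j - d' j) = 0 := by
    unfold S
    rw [← sub_eq_zero, ← sum_sub_distrib] at h
    rw [← h]
    refine sum_congr rfl fun j _ => ?_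
    ring
  have hk := key (q : ℤ) (by exact_mod_cast hq) (fun j => d j - d' j) he w
    (fun j hj _ => (hne j hj).2) hS
  funext j
  by_contra hj
  have h1 : d j - d' j ≠ 0 := sub_ne_zero.2 hj
  exact h1 (hk j (hne j h1).1)

end Pool.Agent.NH52.WN
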