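import Pool.Agent.NH57.WM.Fin
import Pool.Agent.NH52.MB.Base
import Pool.Agent.NH52.WN.La
import Pool.Agent.NH52.WN.Log
import Pool.Agent.NH52.WN.Trc
import Pool.Agent.NH52.WN.Cps
import Pool.Agent.NH52.WN.Pair
import Pool.Agent.NH52.WN.Uni

/-!
# WN: the data of the linear algebra given by a representation with multiplicity-free monodromy
-/

set_option autoImplicit false
set_option linter.unusedSectionVars false

namespace Pool.Agent.NH52.WN

open NumberField Filter Topology IsDedekindDomain Pool.Agent.W401.Cheb Pool.Agent.R401.Sup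
open Pool.Agent.W569.FM Pool.Agent.R401.Img Pool.Agent.R401.Sup3 Pool.Agent.R401.Sup4
open Pool.Agent.R401.Tr3 Pool.Agent.R401.Tr4 Pool.Agent.R401.Tr5 Module Polynomial Matrix
open Pool.Agent.R401.Tr8 Pool.Agent.R401.Tr9 Pool.Agent.NH57.WM
open Pool.Agent.NH52.MB (EE comm_E M_E E_unit)

theorem la : S_LA := t_LA t_TRC t_CPS t_PAIR

/-- the form of a matrix -/
noncomputable def fm {k : Type} [Field k] {n : ℕ} (J : Matrix (Fin n) (Fin n) k) :
    (Fin n → k) →ₗ[k] (Fin n → k) →ₗ[k] k := Matrix.toBilin' J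

theorem fm_apply {k : Type} [Field k] {n : ℕ} (J : Matrix (Fin n) (Fin n) k) (x y : Fin n → k) :
    fm J x y = x ⬝ᵥ J *ᵥ y := Matrix.toBilin'_apply' J x y

theorem fm_mul {k : Type} [Field k] {n : ℕ} (J A : Matrix (Fin n) (Fin n) k) (x y : Fin n → k) :
    fm J (A *ᵥ x) (A *ᵥ y) = fm (Aᵀ * J * A) x y := by
  rw [fm_apply, fm_apply, ← Matrix.mulVec_mulVec, ← Matrix.mulVec_mulVec, Matrix.dotProduct_mulVec x Aᵀ,
    Matrix.vecMul_transpose]

section range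

variable {k V : Type} [Field k] [AddCommGroup V] [Module k V]

theorem range_pow_mul {A B : End k V} (h : Commute A B) (hB : IsUnit B) (j : ℕ) :
    LinearMap.range ((A * B) ^ j) = LinearMap.range (A ^ j) := by
  rw [h.mul_pow]
  obtain ⟨e, he⟩ := hB.pow j
  rw [← he]
  apply le_antisymm
  · rintro _ ⟨x, rfl⟩
    exact ⟨(e : End k V) x, rfl⟩
  · rintro _ ⟨x, rfl⟩
    refine ⟨((e⁻¹ : (End k V)ˣ) : End k V) x, ?_⟩
    rw [Module.End.mul_apply, ← Module.End.mul_apply (e : End k V), Units.mul_inv, Module.End.one_apply]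

end range

variable {K : Type} [Field K] [NumberField K] {ℓ : ℕ} [Fact ℓ.Prime] {n : ℕ}

section one

variable (V : GK K →* GL (Fin n) ℚ_[ℓ]) (hV : Continuous V) {P : Ideal (OO K)} (hP : P.IsMaximal)
  (hℓP : (ℓ : OO K) ∉ P)

/-- the action of the Galois group by endomorphisms -/
noncomputable abbrev ve : GK K →* End ℚ_[ℓ] (Fin n → ℚ_[ℓ]) := en (mh V)

theorem ve_apply (g : GK K) (x : Fin n → ℚ_[ℓ]) : ve V g x = mt V g *ᵥ x := rfl

theorem ve_eq (g : GK K) : ve V g = Matrix.toLin' (mt V g) := rfl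

include hV hP hℓP in
/-- the logarithm of an inertia element -/
theorem exists_N {g : GK K} (hg : InInertia P g) (hn : IsNilpotent (mt V g - 1)) :
    ∃ (k : ℕ) (N : End ℚ_[ℓ] (Fin n → ℚ_[ℓ])), IsNilpotent N ∧
      (∀ j, LinearMap.range (N ^ j) = LinearMap.range (Matrix.toLin' ((mt V g - 1) ^ j))) ∧
      (∀ x, N x = 0 ↔ mt V g *ᵥ x = x) ∧
      (∀ (s : GK K) (Q : ℕ), 1 ≤ Q → FrobAt Q P s⁻¹ → N * ve V s = (Q : ℚ_[ℓ]) • (ve V s * N)) ∧
      ∀ J : (Fin n → ℚ_[ℓ]) →ₗ[ℚ_[ℓ]] (Fin n → ℚ_[ℓ]) →ₗ[ℚ_[ℓ]] ℚ_[ℓ],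
        (∀ x y, J (ve V (g ^ k) x) (ve V (g ^ k) y) = J x y) → ∀ x y, J (N x) y = - J x (N y) := by
  classical
  have hmc : Continuous (mh V) := continuous_mt V hV
  obtain ⟨H, hHn, hHo, hH⟩ := exists_small (mh V) hmc
  obtain ⟨l, hl, hlP⟩ := Pool.Agent.R703.FM.exists_prime_mem P hP
  have hne : ℓ ≠ l := by
    rintro rfl
    exact hℓP hlP
  have hfin : Finite (GK K ⧸ H) := Subgroup.quotient_finite_of_isOpen _ hHo
  have hfi : H.FiniteIndex := Subgroup.finiteIndex_of_finite_quotient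
  set k := H.index with hk
  have hk0 : ((k : ℕ) : ℚ_[ℓ]) ≠ 0 := by exact_mod_cast hfi.index_ne_zero
  have hgH : g ^ k ∈ H := Subgroup.pow_index_mem H g
  have hgI : InInertia P (g ^ k) := (IG P).pow_mem (show g ∈ IG P from hg) _
  set M : End ℚ_[ℓ] (Fin n → ℚ_[ℓ]) := ve V g - 1 with hM
  have hM' : ∀ j : ℕ, M ^ j = Matrix.toLin' ((mt V g - 1) ^ j) := by
    intro j
    rw [Matrix.toLin'_pow, map_sub, Matrix.toLin'_one, hM, ve_eq]
    rfl
  have hMn : IsNilpotent M := by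
    obtain ⟨m, hm⟩ := hn
    refine ⟨m, ?_⟩
    rw [hM', hm, map_zero]
  have h1M : ve V g = 1 + M := by rw [hM]; abel
  have ht : ve V (g ^ k) - 1 = M * EE M k := by
    rw [M_E, ← h1M, map_pow]
  have hEu : IsUnit (EE M k) := by
    obtain ⟨e, he⟩ := E_unit (q := k) hMn hk0
    exact ⟨e, he⟩
  have htn : IsNilpotent (ve V (g ^ k) - 1) := by
    rw [ht]
    exact (comm_E (M := M) (q := k)).isNilpotent_mul_right hMn
  obtain ⟨N, u, u', hN1, hN2, hu1, hu2, hN3, hN4⟩ := t_LOG ℚ_[ℓ] (Fin n → ℚ_[ℓ]) (ve V (g ^ k)) htn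
  have huu : IsUnit u := ⟨⟨u, u', hu1, hu2⟩, rfl⟩
  have hcu : Commute (ve V (g ^ k) - 1) u := by
    show (ve V (g ^ k) - 1) * u = u * (ve V (g ^ k) - 1)
    rw [← hN1, ← hN2]
  refine ⟨k, N, ?_, ?_, ?_, ?_, hN4⟩
  · rw [hN1]
    exact hcu.isNilpotent_mul_right htn
  · intro j
    rw [hN1, range_pow_mul hcu huu, ht, range_pow_mul comm_E hEu, hM']
  · intro x
    have h1 : ∀ x, (ve V (g ^ k) - 1) x = 0 ↔ M x = 0 := by
      intro x
      rw [ht]
      constructor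
      · intro hx
        obtain ⟨e, he⟩ := hEu
        have h2 : M * EE M k = EE M k * M := comm_E.eq
        rw [h2, ← he, Module.End.mul_apply] at hx
        have h3 : ((e⁻¹ : (End ℚ_[ℓ] (Fin n → ℚ_[ℓ]))ˣ) : End ℚ_[ℓ] (Fin n → ℚ_[ℓ]))
            ((e : End ℚ_[ℓ] (Fin n → ℚ_[ℓ])) (M x)) = M x := by
          rw [← Module.End.mul_apply, Units.inv_mul, Module.End.one_apply]
        rw [← h3, hx, map_zero]
      · intro hx
        have h2 : M * EE M k = EE M k * M := comm_E.eq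
        rw [h2, Module.End.mul_apply, hx, map_zero]
    have h2 : M x = 0 ↔ mt V g *ᵥ x = x := by
      rw [hM, LinearMap.sub_apply, Module.End.one_apply, ve_apply, sub_eq_zero]
    rw [← h2, ← h1]
    constructor
    · intro hx
      have h3 : u' (N x) = (ve V (g ^ k) - 1) x := by
        rw [hN2, ← Module.End.mul_apply, ← mul_assoc, hu2, one_mul]
      rw [← h3, hx, map_zero]
    · intro hx
      rw [hN2, Module.End.mul_apply, hx, map_zero]
  · intro s Q hQ hs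
    have hrel := tame_rel' (mh V) hmc H hHo hH hl hne hQ hP hlP hgH hgI hs
    have hrel2 : ve V s⁻¹ * ve V (g ^ k) * ve V s = (ve V (g ^ k)) ^ Q := by
      rw [← map_mul, ← map_mul, ← map_pow]
      rw [inv_inv] at hrel
      apply LinearMap.ext
      intro x
      rw [en_apply, en_apply, hrel, ← map_pow]
    have h1 : ve V s⁻¹ * ve V s = 1 := by rw [← map_mul, inv_mul_cancel, map_one]
    have h2 : ve V s * ve V s⁻¹ = 1 := by rw [← map_mul, mul_inv_cancel, map_one]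
    have h3 := hN3 _ _ Q h1 h2 hrel2
    calc N * ve V s = (ve V s * ve V s⁻¹) * N * ve V s := by rw [h2, one_mul]
      _ = ve V s * (ve V s⁻¹ * N * ve V s) := by simp only [mul_assoc]
      _ = (Q : ℚ_[ℓ]) • (ve V s * N) := by rw [h3, mul_smul_comm]

include hV hP hℓP in
theorem exists_data {q : ℕ} (hq : 2 ≤ q) {σ : GK K} (hσ : FrobAt q P σ) (w : ℕ)
    (J : Matrix (Fin n) (Fin n) ℚ_[ℓ]) (hJ0 : J.det ≠ 0) (hJs : Jᵀ = (-1 : ℚ_[ℓ]) ^ w • J)
    (hJ : ∀ g, FrobAt q P g⁻¹ → (mt V g)ᵀ * J * mt V g = (q : ℚ_[ℓ]) ^ w • J)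
    (U : Subgroup (GK K)) {g : GK K} (hg : InInertia P g)
    (hn : IsNilpotent (mt V g - 1))
    (hfix : ∀ x, mt V g *ᵥ x = x → ∀ h ∈ U, InInertia P h → mt V h *ᵥ x = x)
    (I : Submodule ℚ_[ℓ] (Fin n → ℚ_[ℓ]))
    (hI : ∀ x, x ∈ I ↔ ∀ τ, InInertia P τ → mt V τ *ᵥ x = x)
    (hmf : ∀ b : ℕ, finrank ℚ_[ℓ] ↥(I ⊓ LinearMap.range (Matrix.toLin' ((mt V g - 1) ^ b))) ≤
      finrank ℚ_[ℓ] ↥(I ⊓ LinearMap.range (Matrix.toLin' ((mt V g - 1) ^ (b + 1)))) + 1)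
    (U₀ : Subgroup (GK K)) (hU₀ : IsOpen (U₀ : Set (GK K))) (hle : U₀ ≤ U) :
    ∃ (B : Finset ℕ) (s : ℕ → ℚ_[ℓ]),
      (∀ j ∈ B, j % 2 = w % 2 ∧ s j ^ 2 * (q : ℚ_[ℓ]) ^ j = (q : ℚ_[ℓ]) ^ w) ∧
      cps (Matrix.toLin' (mt V σ⁻¹)) I = ∏ j ∈ B, (X - C (s j)) ∧
      ((Nat.card (IG P ⧸ U₀.subgroupOf (IG P)) : ℚ_[ℓ])⁻¹ *
        ∑ᶠ c : IG P ⧸ U₀.subgroupOf (IG P), (mt V (σ⁻¹ * ((c.out : IG P) : GK K))).trace =
        ∑ j ∈ B, s j * ∑ i ∈ Finset.range (j + 1), (q : ℚ_[ℓ]) ^ i) := by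
  classical
  have := Pool.Agent.R401.Tr6.finQ U₀ hU₀ (P := P)
  have hft : Fintype (IG P ⧸ U₀.subgroupOf (IG P)) := Fintype.ofFinite _
  obtain ⟨k, N, hNn, hNr, hN0, hNs, hNJ⟩ := exists_N V hV hP hℓP hg hn
  have hq0 : (q : ℚ_[ℓ]) ≠ 0 := by
    have : q ≠ 0 := by omega
    exact_mod_cast this
  have hqw : (q : ℚ_[ℓ]) ^ w ≠ 0 := pow_ne_zero _ hq0
  -- the inertia group acts by isometries
  have hiso : ∀ τ, InInertia P τ → (mt V τ)ᵀ * J * mt V τ = J := by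
    intro τ hτ
    have h1 := hJ σ⁻¹ (by rwa [inv_inv])
    have h2 := hJ (σ⁻¹ * τ) (by
      rw [_root_.mul_inv_rev, inv_inv]
      exact frob_mul_inertia hσ ((IG P).inv_mem (show τ ∈ IG P from hτ)))
    rw [mt_mul, Matrix.transpose_mul] at h2
    have h3 : (mt V τ)ᵀ * (mt V σ⁻¹)ᵀ * J * (mt V σ⁻¹ * mt V τ) =
        (mt V τ)ᵀ * ((mt V σ⁻¹)ᵀ * J * mt V σ⁻¹) * mt V τ := by simp only [mul_assoc]
    rw [h3, h1, mul_smul_comm, smul_mul_assoc] at h2
    exact smul_right_injective _ hqw h2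
  have hisoE : ∀ τ, InInertia P τ → ∀ x y, fm J (ve V τ x) (ve V τ y) = fm J x y := by
    intro τ hτ x y
    rw [ve_apply, ve_apply, fm_mul, hiso τ hτ]
  -- the representation of the inertia group
  let ρ : IG P →* End ℚ_[ℓ] (Fin n → ℚ_[ℓ]) := (ve V).comp (IG P).subtype
  have hρ : ∀ (τ : IG P) (x : Fin n → ℚ_[ℓ]), ρ τ x = mt V (τ : GK K) *ᵥ x := fun _ _ => rfl
  have hinv : inv ρ = I := by
    ext x
    rw [hI]
    constructor
    · intro hx τ hτ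
      exact hx ⟨τ, hτ⟩
    · intro hx τ
      exact hx τ τ.2
  have hinj : Function.Injective fun c : IG P ⧸ U₀.subgroupOf (IG P) => (c.out : IG P) := by
    intro a b hab
    have h1 : ((a.out : IG P) : IG P ⧸ U₀.subgroupOf (IG P)) = ((b.out : IG P) : IG P ⧸ _) := by
      simp only at hab
      rw [hab]
    rwa [QuotientGroup.out_eq', QuotientGroup.out_eq'] at h1
  let D : Finset (IG P) := Finset.univ.image fun c : IG P ⧸ U₀.subgroupOf (IG P) => (c.out : IG P)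
  have hD : ∀ {A : Type} [AddCommMonoid A] (f : IG P → A), ∑ d ∈ D, f d =
      ∑ c : IG P ⧸ U₀.subgroupOf (IG P), f c.out := by
    intro A _ f
    exact Finset.sum_image fun a _ b _ hab => hinj hab
  have hDc : D.card = Nat.card (IG P ⧸ U₀.subgroupOf (IG P)) := by
    rw [Finset.card_image_of_injective _ hinj, Finset.card_univ, Nat.card_eq_fintype_card]
  have hfrobI : ∀ τ, InInertia P τ → FrobAt 1 P τ := by
    intro τ hτ x
    rw [pow_one]
    exact hτ x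
  have hW : WD N (ve V σ⁻¹) (fm J) ρ D q w := by
    refine ⟨hNn, hq0, hNs σ⁻¹ q (by omega) (by rwa [inv_inv]), ?_, ?_, ?_, ?_, ?_, ?_, ?_, ?_, ?_, ?_⟩
    · exact hNJ (fm J) (hisoE _ ((IG P).pow_mem (show g ∈ IG P from hg) _))
    · intro x y
      have h1 : fm J y x = fm Jᵀ x y := by
        rw [fm_apply, fm_apply, Matrix.dotProduct_mulVec, ← Matrix.mulVec_transpose, dotProduct_comm]
      rw [h1, hJs, fm_apply, fm_apply, Matrix.smul_mulVec, dotProduct_smul, smul_eq_mul]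
    · intro x hx
      have h1 : x ᵥ* J = 0 := by
        funext i
        have h2 := hx (Pi.single i 1)
        rw [fm_apply, Matrix.dotProduct_mulVec, dotProduct_single_one] at h2
        exact h2
      have h3 := congrArg (fun v => v ᵥ* J⁻¹) h1
      simp only [Matrix.vecMul_vecMul] at h3
      rwa [Matrix.mul_nonsing_inv _ (isUnit_iff_ne_zero.2 hJ0), Matrix.vecMul_one,
        Matrix.zero_vecMul] at h3
    · intro x y
      rw [ve_apply, ve_apply, fm_mul, hJ σ⁻¹ (by rwa [inv_inv]), fm_apply, fm_apply,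
        Matrix.smul_mulVec, dotProduct_smul, smul_eq_mul]
    · intro τ
      have h1 := hNs (τ : GK K) 1 le_rfl (hfrobI _ ((IG P).inv_mem τ.2))
      rw [Nat.cast_one, one_smul] at h1
      exact h1
    · intro τ x y
      exact hisoE _ τ.2 x y
    · intro τ
      refine ⟨⟨σ * τ * σ⁻¹, inertia_conj (by omega) hσ τ.2⟩, ?_⟩
      change ve V (τ : GK K) * ve V σ⁻¹ = ve V σ⁻¹ * ve V (σ * τ * σ⁻¹)
      rw [← map_mul, ← map_mul]
      congr 1
      group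
    · rw [← Finset.card_pos, hDc]
      exact Nat.card_pos
    · intro τ x hx
      rw [hN0] at hx
      rw [hD, hD]
      have hout : ∀ {a b : IG P}, (a : IG P ⧸ U₀.subgroupOf (IG P)) = b → ρ a x = ρ b x := by
        intro a b h
        have h1 := QuotientGroup.eq.1 h
        rw [Subgroup.mem_subgroupOf] at h1
        have h2 := hfix x hx _ (hle h1) (a⁻¹ * b).2
        have h3 : b = a * (a⁻¹ * b) := by rw [mul_inv_cancel_left]
        conv_rhs => rw [h3, map_mul, Module.End.mul_apply, hρ (a⁻¹ * b), h2]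
      conv_rhs => rw [← Equiv.sum_comp (MulAction.toPerm τ : Equiv.Perm (IG P ⧸ U₀.subgroupOf (IG P)))]
      refine Finset.sum_congr rfl fun c _ => ?_
      apply hout
      rw [MulAction.toPerm_apply]
      have h2 : (((τ • c).out : IG P) : IG P ⧸ U₀.subgroupOf (IG P)) = τ • c := Quotient.out_eq _
      rw [h2]
      conv_rhs => rw [← Quotient.out_eq c]
      rfl
    · intro x hx
      rw [LinearMap.mem_ker, hN0]
      exact hx ⟨g, hg⟩
  obtain ⟨B, s, h1, h2, h3⟩ := la ℚ_[ℓ] (Fin n → ℚ_[ℓ]) (IG P) N (ve V σ⁻¹) (fm J) ρ D q w hW (by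
    intro j
    rw [hinv, hNr, hNr]
    exact hmf j)
  refine ⟨B, s, h1, ?_, ?_⟩
  · rw [hinv] at h2
    exact h2
  · rw [← h3, hDc, hD, finsum_eq_sum_of_fintype]
    congr 1
    refine Finset.sum_congr rfl fun c _ => ?_
    have h4 : ve V σ⁻¹ * ρ c.out = Matrix.toLin' (mt V (σ⁻¹ * ((c.out : IG P) : GK K))) := by
      change ve V σ⁻¹ * ve V ((c.out : IG P) : GK K) = _
      rw [← map_mul]
      rfl
    rw [h4, Matrix.trace_toLin'_eq]

end one

section arith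

/-- the sign -/
theorem exists_sign {q w j : ℕ} (hq : 2 ≤ q) {s : ℚ_[ℓ]} (hs : s ^ 2 * (q : ℚ_[ℓ]) ^ j = (q : ℚ_[ℓ]) ^ w)
    (hj : j % 2 = w % 2) (hint : IsIntegral ℤ s) :
    j ≤ w ∧ ∃ d : ℤ, (d = 1 ∨ d = -1) ∧ s = ((d * (q : ℤ) ^ ((w - j) / 2) : ℤ) : ℚ_[ℓ]) := by
  have hq0 : (q : ℚ_[ℓ]) ≠ 0 := by
    have : q ≠ 0 := by omega
    exact_mod_cast this
  have hjw : j ≤ w := by
    by_contra hlt
    push Not at hlt
    have h1 : s ^ 2 * (q : ℚ_[ℓ]) ^ (j - w) = 1 := by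
      have h2 : (q : ℚ_[ℓ]) ^ j = (q : ℚ_[ℓ]) ^ (j - w) * (q : ℚ_[ℓ]) ^ w := by
        rw [← pow_add]
        congr 1
        omega
      rw [h2, ← mul_assoc] at hs
      exact mul_right_cancel₀ (pow_ne_zero w hq0) (by rw [hs, one_mul])
    have h3 : s ^ 2 = (((q : ℚ) ^ (j - w))⁻¹ : ℚ) := by
      push_cast
      exact eq_inv_of_mul_eq_one_left h1
    have h4 : IsIntegral ℤ (((q : ℚ) ^ (j - w))⁻¹ : ℚ) := by
      have h5 : IsIntegral ℤ (((((q : ℚ) ^ (j - w))⁻¹ : ℚ)) : ℚ_[ℓ]) := by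
        rw [← h3]
        exact hint.pow 2
      exact (isIntegral_algebraMap_iff (algebraMap ℚ ℚ_[ℓ]).injective).1 h5
    obtain ⟨z, hz⟩ := IsIntegrallyClosed.isIntegral_iff.1 h4
    have h6 : (z : ℚ) * (q : ℚ) ^ (j - w) = 1 := by
      have h7 : ((q : ℚ)) ^ (j - w) ≠ 0 := by
        have : (q : ℚ) ≠ 0 := by
          have : q ≠ 0 := by omega
          exact_mod_cast this
        exact pow_ne_zero _ this
      have h8 : (z : ℚ) = ((q : ℚ) ^ (j - w))⁻¹ := hz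
      rw [h8, inv_mul_cancel₀ h7]
    have h7 : z * (q : ℤ) ^ (j - w) = 1 := by exact_mod_cast h6
    have h8 : IsUnit ((q : ℤ) ^ (j - w)) := IsUnit.of_mul_eq_one z (by rw [mul_comm]; exact h7)
    rw [isUnit_pow_iff (by omega), Int.isUnit_iff] at h8
    omega
  refine ⟨hjw, ?_⟩
  set m := (w - j) / 2 with hm
  have h1 : w = j + 2 * m := by omega
  have h2 : s ^ 2 = ((q : ℚ_[ℓ]) ^ m) ^ 2 := by
    rw [h1, pow_add, mul_comm (s ^ 2)] at hs
    have h3 := mul_left_cancel₀ (pow_ne_zero j hq0) hs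
    rw [h3, ← pow_mul, mul_comm m 2]
  rcases sq_eq_sq_iff_eq_or_eq_neg.1 h2 with h | h
  · exact ⟨1, Or.inl rfl, by rw [h]; push_cast; ring⟩
  · exact ⟨-1, Or.inr rfl, by rw [h]; push_cast; ring⟩

/-- the integral combination -/
def cmb (q w : ℕ) (d : ℕ → ℤ) : ℤ :=
  ∑ j ∈ Finset.range (w + 1), d j * ((q : ℤ) ^ ((w - j) / 2) * ∑ i ∈ Finset.range (j + 1), (q : ℤ) ^ i)

/-- the possible sign functions -/
def Sg (w : ℕ) (d : ℕ → ℤ) : Prop := ∀ j, d j ≠ 0 → j ≤ w ∧ j % 2 = w % 2 ∧ (d j = 1 ∨ d j = -1)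

/-- the support -/
def sup (w : ℕ) (d : ℕ → ℤ) : Finset ℕ := (Finset.range (w + 1)).filter fun j => d j ≠ 0

theorem mem_sup {w : ℕ} {d : ℕ → ℤ} (hd : Sg w d) {j : ℕ} : j ∈ sup w d ↔ d j ≠ 0 := by
  unfold sup
  rw [Finset.mem_filter, Finset.mem_range]
  exact ⟨fun h => h.2, fun h => ⟨by have := (hd j h).1; omega, h⟩⟩

theorem root_int {W : Type} [AddCommGroup W] [Module ℚ_[ℓ] W] [FiniteDimensional ℚ_[ℓ] W]
    (f : End ℚ_[ℓ] W) {s : ℚ_[ℓ]} (hs : f.charpoly.eval s = 0) {h : ℤ[X]} (hh : h.Monic)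
    (hf : aeval f h = 0) : IsIntegral ℤ s := by
  have h1 : Module.End.HasEigenvalue f s := by
    rw [Module.End.hasEigenvalue_iff_isRoot_charpoly]
    exact hs
  obtain ⟨x, hx⟩ := h1.exists_hasEigenvector
  have h2 : aeval f (h.map (algebraMap ℤ ℚ_[ℓ])) = 0 := by rw [aeval_map_algebraMap, hf]
  have h3 := Module.End.aeval_apply_of_hasEigenvector (p := h.map (algebraMap ℤ ℚ_[ℓ])) hx
  rw [h2, LinearMap.zero_apply, eval_map_algebraMap] at h3
  refine ⟨h, hh, ?_⟩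
  have h4 := smul_eq_zero.1 h3.symm
  rcases h4 with h4 | h4
  · rw [← aeval_def]
    exact h4
  · exact absurd h4 hx.2

end arith

section two

variable (V : GK K →* GL (Fin n) ℚ_[ℓ]) (hV : Continuous V) {P : Ideal (OO K)} (hP : P.IsMaximal)
  (hℓP : (ℓ : OO K) ∉ P)

include hV hP hℓP in
theorem single {q : ℕ} (hq : 2 ≤ q) {σ : GK K} (hσ : FrobAt q P σ) (w : ℕ)
    (J : Matrix (Fin n) (Fin n) ℚ_[ℓ]) (hJ0 : J.det ≠ 0) (hJs : Jᵀ = (-1 : ℚ_[ℓ]) ^ w • J)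
    (hJ : ∀ g, FrobAt q P g⁻¹ → (mt V g)ᵀ * J * mt V g = (q : ℚ_[ℓ]) ^ w • J)
    (U : Subgroup (GK K)) {g : GK K} (hg : InInertia P g)
    (hn : IsNilpotent (mt V g - 1))
    (hfix : ∀ x, mt V g *ᵥ x = x → ∀ h ∈ U, InInertia P h → mt V h *ᵥ x = x)
    (I : Submodule ℚ_[ℓ] (Fin n → ℚ_[ℓ]))
    (hI : ∀ x, x ∈ I ↔ ∀ τ, InInertia P τ → mt V τ *ᵥ x = x)
    (hmf : ∀ b : ℕ, finrank ℚ_[ℓ] ↥(I ⊓ LinearMap.range (Matrix.toLin' ((mt V g - 1) ^ b))) ≤
      finrank ℚ_[ℓ] ↥(I ⊓ LinearMap.range (Matrix.toLin' ((mt V g - 1) ^ (b + 1)))) + 1)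
    (hint : ∃ f : ℤ[X], f.Monic ∧ aeval (mt V σ⁻¹) f = 0)
    (U₀ : Subgroup (GK K)) (hU₀ : IsOpen (U₀ : Set (GK K))) (hle : U₀ ≤ U) :
    ∃ d : ℕ → ℤ, Sg w d ∧
      cps (Matrix.toLin' (mt V σ⁻¹)) I =
        ∏ j ∈ sup w d, (X - C ((d j * (q : ℤ) ^ ((w - j) / 2) : ℤ) : ℚ_[ℓ])) ∧
      ((Nat.card (IG P ⧸ U₀.subgroupOf (IG P)) : ℚ_[ℓ])⁻¹ *
        ∑ᶠ c : IG P ⧸ U₀.subgroupOf (IG P), (mt V (σ⁻¹ * ((c.out : IG P) : GK K))).trace =
        ((cmb q w d : ℤ) : ℚ_[ℓ])) := by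
  classical
  obtain ⟨B, s, h1, h2, h3⟩ := exists_data V hV hP hℓP hq hσ w J hJ0 hJs hJ U hg hn hfix I hI hmf
    U₀ hU₀ hle
  obtain ⟨f, hf, hf0⟩ := hint
  have hst : ∀ x ∈ I, (Matrix.toLin' (mt V σ⁻¹)) x ∈ I := by
    intro x hx
    rw [Matrix.toLin'_apply]
    exact Pool.Agent.R401.Tr6.stable V hq hσ hI x hx
  have hsi : ∀ j ∈ B, IsIntegral ℤ (s j) := by
    intro j hj
    have h4 : ((Matrix.toLin' (mt V σ⁻¹)).restrict hst).charpoly.eval (s j) = 0 := by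
      have h5 : cps (Matrix.toLin' (mt V σ⁻¹)) I = ((Matrix.toLin' (mt V σ⁻¹)).restrict hst).charpoly := by
        unfold cps
        rw [dif_pos hst]
      rw [← h5, h2, eval_prod]
      exact Finset.prod_eq_zero hj (by simp)
    refine root_int _ h4 hf ?_
    apply LinearMap.ext
    intro x
    apply Subtype.ext
    have h6 : ∀ (p : ℤ[X]), ((aeval ((Matrix.toLin' (mt V σ⁻¹)).restrict hst) p x : I) :
        Fin n → ℚ_[ℓ]) = (aeval (Matrix.toLin' (mt V σ⁻¹)) p) (x : Fin n → ℚ_[ℓ]) := by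
      intro p
      induction p using Polynomial.induction_on' with
      | add p p' hp hp' => rw [map_add, map_add, LinearMap.add_apply, LinearMap.add_apply,
          Submodule.coe_add, hp, hp']
      | monomial m c =>
        rw [aeval_monomial, aeval_monomial]
        have h7 : ∀ (m : ℕ) (y : I), ((((Matrix.toLin' (mt V σ⁻¹)).restrict hst) ^ m) y : Fin n → ℚ_[ℓ]) =
            ((Matrix.toLin' (mt V σ⁻¹)) ^ m) (y : Fin n → ℚ_[ℓ]) := by
          intro m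
          induction m with
          | zero => intro y; rfl
          | succ m ih =>
            intro y
            rw [pow_succ, pow_succ, Module.End.mul_apply, Module.End.mul_apply, ih]
            rfl
        rw [Module.End.mul_apply, Module.End.mul_apply, ← h7]
        simp
    rw [h6]
    have h8 : aeval (Matrix.toLin' (mt V σ⁻¹)) f = Matrix.toLin' (aeval (mt V σ⁻¹) f) := by
      have h9 : (Matrix.toLin' (aeval (mt V σ⁻¹) f) : End ℚ_[ℓ] (Fin n → ℚ_[ℓ])) =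
        Matrix.toLinAlgEquiv' (aeval (mt V σ⁻¹) f) := rfl
      have h10 : (Matrix.toLin' (mt V σ⁻¹) : End ℚ_[ℓ] (Fin n → ℚ_[ℓ])) =
        Matrix.toLinAlgEquiv' (mt V σ⁻¹) := rfl
      rw [h9, h10]
      have h11 := Polynomial.aeval_algHom_apply ((Matrix.toLinAlgEquiv' : Matrix (Fin n) (Fin n) ℚ_[ℓ] ≃ₐ[ℚ_[ℓ]]
        _).toAlgHom.restrictScalars ℤ) (mt V σ⁻¹) f
      exact h11
    rw [h8, hf0, map_zero]
    rfl
  have hsg : ∀ j : ℕ, ∃ e : ℤ, (j ∈ B → j ≤ w ∧ (e = 1 ∨ e = -1) ∧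
      s j = ((e * (q : ℤ) ^ ((w - j) / 2) : ℤ) : ℚ_[ℓ])) ∧ (j ∉ B → e = 0) := by
    intro j
    by_cases hj : j ∈ B
    · obtain ⟨h4, e, h5, h6⟩ := exists_sign hq (h1 j hj).2 (h1 j hj).1 (hsi j hj)
      exact ⟨e, fun _ => ⟨h4, h5, h6⟩, fun h => absurd hj h⟩
    · exact ⟨0, fun h => absurd h hj, fun _ => rfl⟩
  choose d hd1 hd2 using hsg
  have hdB : ∀ j, d j ≠ 0 ↔ j ∈ B := by
    intro j
    constructor
    · intro h
      by_contra hj
      exact h (hd2 j hj)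
    · intro hj h
      rcases (hd1 j hj).2.1 with h' | h' <;> omega
  have hsgd : Sg w d := fun j hj => ⟨(hd1 j ((hdB j).1 hj)).1, (h1 j ((hdB j).1 hj)).1,
    (hd1 j ((hdB j).1 hj)).2.1⟩
  have hsup : sup w d = B := by
    ext j
    rw [mem_sup hsgd, hdB]
  refine ⟨d, hsgd, ?_, ?_⟩
  · rw [h2, hsup]
    exact Finset.prod_congr rfl fun j hj => by rw [(hd1 j hj).2.2]
  · rw [h3, ← hsup]
    unfold cmb sup
    rw [Finset.sum_filter]
    push_cast
    refine Finset.sum_congr rfl fun j _ => ?_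
    split_ifs with h
    · rw [(hd1 j ((hdB j).1 h)).2.2]
      push_cast
      ring
    · push Not at h
      rw [h]
      push_cast
      ring

end two

end Pool.Agent.NH52.WN
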