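import Mathlib

/-!
# Project WN: local factors at places with multiplicity-free monodromy (statements, only Mathlib)
-/

set_option autoImplicit false

namespace Pool.Agent.NH52.WN

open Module Polynomial

section

variable {k V : Type} [Field k] [AddCommGroup V] [Module k V]

/-- `ker N ∩ im N ^ j` -/
def KN (N : End k V) (j : ℕ) : Submodule k V := LinearMap.ker N ⊓ LinearMap.range (N ^ j)

open Classical in
/-- the trace of `y` on the stable subspace `W` -/
noncomputable def trs (y : End k V) (W : Submodule k V) : k :=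
  if h : ∀ x ∈ W, y x ∈ W then LinearMap.trace k W (y.restrict h) else 0

open Classical in
/-- the characteristic polynomial of `y` on the stable subspace `W` -/
noncomputable def cps [FiniteDimensional k V] (y : End k V) (W : Submodule k V) : k[X] :=
  if h : ∀ x ∈ W, y x ∈ W then LinearMap.charpoly (y.restrict h) else 1

/-- the vectors fixed by all the elements of the group -/
def inv {G : Type} [Group G] (ρ : G →* End k V) : Submodule k V where
  carrier := {x | ∀ g, ρ g x = x}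
  add_mem' := by
    intro x y hx hy g
    rw [map_add, hx g, hy g]
  zero_mem' := by
    intro g
    rw [map_zero]
  smul_mem' := by
    intro c x hx g
    rw [map_smul, hx g]

/-- the linear algebra at a place: `N` is the monodromy operator, `F` a geometric Frobenius element, `J`
the polarization, `ρ` the action of the inertia group `G`, which acts on the kernel of `N` through a
finite quotient with the representatives `D` -/
structure WD {G : Type} [Group G] (N F : End k V) (J : V →ₗ[k] V →ₗ[k] k) (ρ : G →* End k V)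
    (D : Finset G) (q w : ℕ) : Prop where
  nil : IsNilpotent N
  q0 : (q : k) ≠ 0
  rel : N * F = (q : k) • (F * N)
  skew : ∀ x y, J (N x) y = - J x (N y)
  sym : ∀ x y, J y x = (-1) ^ w * J x y
  nd : ∀ x, (∀ y, J x y = 0) → x = 0
  sim : ∀ x y, J (F x) (F y) = (q : k) ^ w * J x y
  com : ∀ g, N * ρ g = ρ g * N
  iso : ∀ g x y, J (ρ g x) (ρ g y) = J x y
  nor : ∀ g, ∃ g', ρ g * F = F * ρ g'
  ne : D.Nonempty
  avg : ∀ g x, N x = 0 → ∑ d ∈ D, ρ (g * d) x = ∑ d ∈ D, ρ d x
  fix : inv ρ ≤ LinearMap.ker N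

end

/-- WN-1: the logarithm of a unipotent isometry -/
def S_LOG : Prop := ∀ (k V : Type) [Field k] [CharZero k] [AddCommGroup V] [Module k V] (t : End k V),
  IsNilpotent (t - 1) → ∃ N u u' : End k V, N = (t - 1) * u ∧ N = u * (t - 1) ∧ u * u' = 1 ∧
    u' * u = 1 ∧
    (∀ (s s' : End k V) (q : ℕ), s * s' = 1 → s' * s = 1 → s * t * s' = t ^ q →
      s * N * s' = (q : k) • N) ∧
    ∀ J : V →ₗ[k] V →ₗ[k] k, (∀ x y, J (t x) (t y) = J x y) → ∀ x y, J (N x) y = - J x (N y)

/-- WN-2: the trace and the monodromy filtration -/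
def S_TRC : Prop := ∀ (k V : Type) [Field k] [AddCommGroup V] [Module k V] [FiniteDimensional k V]
  (N y : End k V) (q : k), IsNilpotent N → N * y = q • (y * N) →
    (∀ j, ∀ x ∈ KN N j, q ≠ 0 → y x ∈ KN N j) ∧
    (q ≠ 0 → LinearMap.trace k V y = ∑ j ∈ Finset.range (finrank k V), q ^ j * trs y (KN N j))

/-- WN-3: characteristic polynomials and traces if `y` acts on `B / A` as multiplication by `c` -/
def S_CPS : Prop := ∀ (k V : Type) [Field k] [AddCommGroup V] [Module k V] [FiniteDimensional k V]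
  [Infinite k] (y : End k V) (A B : Submodule k V) (c : k), A ≤ B → (∀ x ∈ A, y x ∈ A) →
    (∀ x ∈ B, y x - c • x ∈ A) →
      (∀ x ∈ B, y x ∈ B) ∧ cps y B = cps y A * (X - C c) ^ (finrank k B - finrank k A) ∧
      trs y B = trs y A + c * ((finrank k B - finrank k A : ℕ) : k)

/-- WN-4: the eigenvalue of Frobenius -/
def S_PAIR : Prop := ∀ (k V : Type) [Field k] [CharZero k] [AddCommGroup V] [Module k V]
  [FiniteDimensional k V] (G : Type) [Group G] (N F : End k V) (J : V →ₗ[k] V →ₗ[k] k)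
  (ρ : G →* End k V) (D : Finset G) (q w : ℕ), WD N F J ρ D q w → ∀ (b : ℕ) (z : V) (β : k),
    z ∈ inv ρ → z ∈ LinearMap.range (N ^ b) → z ∉ LinearMap.range (N ^ (b + 1)) →
    (∀ z' ∈ inv ρ, z' ∈ LinearMap.range (N ^ b) → ∃ c : k, z' - c • z ∈ LinearMap.range (N ^ (b + 1))) →
    F z - β • z ∈ LinearMap.range (N ^ (b + 1)) → b % 2 = w % 2 ∧ β ^ 2 * (q : k) ^ b = (q : k) ^ w

/-- WN-5: the invariants -/
def S_LA : Prop := ∀ (k V : Type) [Field k] [CharZero k] [AddCommGroup V] [Module k V]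
  [FiniteDimensional k V] (G : Type) [Group G] (N F : End k V) (J : V →ₗ[k] V →ₗ[k] k)
  (ρ : G →* End k V) (D : Finset G) (q w : ℕ), WD N F J ρ D q w →
    (∀ j, finrank k ↥(inv ρ ⊓ LinearMap.range (N ^ j)) ≤
      finrank k ↥(inv ρ ⊓ LinearMap.range (N ^ (j + 1))) + 1) →
    ∃ (B : Finset ℕ) (s : ℕ → k), (∀ j ∈ B, j % 2 = w % 2 ∧ s j ^ 2 * (q : k) ^ j = (q : k) ^ w) ∧
      cps F (inv ρ) = ∏ j ∈ B, (X - C (s j)) ∧
      ((D.card : k)⁻¹ * ∑ d ∈ D, LinearMap.trace k V (F * ρ d) =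
        ∑ j ∈ B, s j * ∑ i ∈ Finset.range (j + 1), (q : k) ^ i)

/-- WN-6: the signs are determined by the trace -/
def S_UNI : Prop := ∀ (q w : ℕ), 2 ≤ q → ∀ d d' : ℕ → ℤ,
  (∀ j, d j ≠ 0 → j ≤ w ∧ j % 2 = w % 2 ∧ (d j = 1 ∨ d j = -1)) →
  (∀ j, d' j ≠ 0 → j ≤ w ∧ j % 2 = w % 2 ∧ (d' j = 1 ∨ d' j = -1)) →
  ∑ j ∈ Finset.range (w + 1), d j * ((q : ℤ) ^ ((w - j) / 2) * ∑ i ∈ Finset.range (j + 1), (q : ℤ) ^ i) =
  ∑ j ∈ Finset.range (w + 1), d' j * ((q : ℤ) ^ ((w - j) / 2) * ∑ i ∈ Finset.range (j + 1), (q : ℤ) ^ i) →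
  d = d'

end Pool.Agent.NH52.WN
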